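import Mathlib
import Pool.Agent.VM.StmtsW

/-!
# Weyl sums, general exponent `(1 + θ) / (k (k + 1))`: statements

`EnfStmt k θ`: the energy bound for dilations up to `q ^ θ`; `BlgStmt`, `FngStmt`: the resulting
bounds for exponential sums.
-/

set_option autoImplicit false

namespace Pool.Agent.VM

open Pool.Agent.Helper69_Weyl (ee)

/-- ENF: the energy, for a set of dilations of size `q ^ (θ - ε)` -/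
def EnfStmt (k : ℕ) (θ : ℝ) : Prop :=
  ∀ ε : ℝ, 0 < ε → ∃ (C : ℝ) (q₀ : ℕ), 0 < C ∧
    ∀ (q : ℕ) (t : ℝ) (a : ℤ), q₀ ≤ q → 1 ≤ q →
    Int.gcd a q = 1 → |t - (a : ℝ) / (q : ℝ)| ≤ 1 / (q : ℝ) ^ 2 →
    ∃ (K : ℕ) (S : Finset ℕ), 1 ≤ K ∧ (∀ d ∈ S, 1 ≤ d ∧ d * K ≤ q) ∧
      (q : ℝ) ^ (θ - ε) ≤ (S.card : ℝ) ∧
      ∀ s₁ s₂ : ℝ,
        (Nat.card {v : (ℕ × ℤ) × (ℕ × ℤ) // v.1.1 ∈ S ∧ v.2.1 ∈ S ∧ |v.1.2| ≤ (q : ℤ) ∧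
          |v.2.2| ≤ (q : ℤ) ∧ Close k K t s₁ s₂ v} : ℝ) ≤ C * (q : ℝ) ^ (1 + ε) * (S.card : ℝ)

/-- `t` is far from the rational numbers with small denominators, at the scale `N` -/
def Far (k N : ℕ) (t : ℝ) : Prop :=
  ∀ (b : ℤ) (u : ℕ), 1 ≤ u → Int.gcd b u = 1 →
    (N : ℝ) / 2 ≤ (u : ℝ) * (1 + (N : ℝ) ^ k * |t - (b : ℝ) / (u : ℝ)|)

/-- ENFAR: the energy for `t` far from rational numbers with small denominators -/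
def EnFarStmt (k : ℕ) (θ : ℝ) : Prop :=
  ∀ ε : ℝ, 0 < ε → ∃ (C : ℝ) (N₀ : ℕ), 0 < C ∧
    ∀ (N : ℕ) (t : ℝ), N₀ ≤ N → 1 ≤ N → Far k N t →
    ∃ (K : ℕ) (S : Finset ℕ), 1 ≤ K ∧ (∀ d ∈ S, 1 ≤ d ∧ d * K ≤ N) ∧
      (N : ℝ) ^ (θ - ε) ≤ (S.card : ℝ) ∧
      ∀ s₁ s₂ : ℝ,
        (Nat.card {v : (ℕ × ℤ) × (ℕ × ℤ) // v.1.1 ∈ S ∧ v.2.1 ∈ S ∧ |v.1.2| ≤ (N : ℤ) ∧
          |v.2.2| ≤ (N : ℤ) ∧ Close k K t s₁ s₂ v} : ℝ) ≤ C * (N : ℝ) ^ (1 + ε) * (S.card : ℝ)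

/-- BLFAR: sums of length at most `N`, leading coefficient far from rational numbers with small
denominators -/
def BlFarStmt (k : ℕ) (θ : ℝ) : Prop :=
  ∀ ε : ℝ, 0 < ε → ∃ C : ℝ, 0 < C ∧ ∀ (N X : ℕ) (P : Polynomial ℝ), 1 ≤ N →
    P.natDegree ≤ k → Far k N (P.coeff k) → X ≤ N →
    ‖∑ n ∈ Finset.Icc (1 : ℤ) (X : ℤ), ee (P.eval (n : ℝ))‖ ≤
      C * (N : ℝ) ^ (1 - (1 + θ) / ((k : ℝ) * ((k : ℝ) + 1)) + ε)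

/-- BLG: sums of length at most `q`, general exponent -/
def BlgStmt (k : ℕ) (θ : ℝ) : Prop :=
  ∀ ε : ℝ, 0 < ε → ∃ C : ℝ, 0 < C ∧ ∀ (q X : ℕ) (a : ℤ) (P : Polynomial ℝ), 1 ≤ q →
    Int.gcd a q = 1 → P.natDegree ≤ k →
    |P.coeff k - (a : ℝ) / (q : ℝ)| ≤ 1 / (q : ℝ) ^ 2 → X ≤ q →
    ‖∑ n ∈ Finset.Icc (1 : ℤ) (X : ℤ), ee (P.eval (n : ℝ))‖ ≤
      C * (q : ℝ) ^ (1 - (1 + θ) / ((k : ℝ) * ((k : ℝ) + 1)) + ε)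

/-- FNG: the final theorem, general exponent -/
def FngStmt (k : ℕ) (θ : ℝ) : Prop :=
  ∀ ε : ℝ, 0 < ε → ∃ C : ℝ, 0 < C ∧ ∀ (N q : ℕ) (a : ℤ) (P : Polynomial ℝ), 1 ≤ q → q ≤ N →
    Int.gcd a q = 1 → P.natDegree ≤ k →
    |P.coeff k - (a : ℝ) / (q : ℝ)| ≤ 1 / (q : ℝ) ^ 2 →
    ‖∑ n ∈ Finset.Icc (1 : ℤ) (N : ℤ), ee (P.eval (n : ℝ))‖ ≤
      C * (N : ℝ) ^ (1 + ε) * (1 / (q : ℝ)) ^ ((1 + θ) / ((k : ℝ) * ((k : ℝ) + 1)))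

end Pool.Agent.VM
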