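import Mathlib
import Pool.Agent.VM.StmtsW

/-!
# Peeling a factor coprime to the denominator

If `x M w` is near an integer, `M` prime to the denominator `u` of the Dirichlet approximation of
`x` at a level `≥ 2 M |w|`, then `u ∣ w` and `x w` is nearer to an integer by the factor `M`.
The set of dilations: products of primes with the peeling property.
-/

set_option autoImplicit false

namespace Pool.Agent.VM.H7

open Pool.Agent.VM

theorem nr_mono {x δ δ' : ℝ} (h : Nr x δ) (hd : δ ≤ δ') : Nr x δ' := by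
  obtain ⟨z, hz⟩ := h
  exact ⟨z, hz.trans hd⟩

/-- the peeling lemma -/
theorem pel (x δ : ℝ) (M u Y : ℕ) (b w : ℤ) (hM : 1 ≤ M) (hu : 1 ≤ u) (huY : u ≤ Y)
    (hgb : Int.gcd b u = 1) (hgM : Nat.Coprime u M)
    (hx : |x - (b : ℝ) / (u : ℝ)| ≤ 1 / ((u : ℝ) * (Y : ℝ)))
    (hY : 2 * (M : ℤ) * |w| ≤ (Y : ℤ)) (hδ : δ < 1 / (2 * (Y : ℝ)))
    (h : Nr (x * (M : ℝ) * (w : ℝ)) δ) :
    (u : ℤ) ∣ w ∧ Nr (x * (w : ℝ)) (δ / (M : ℝ)) := by
  obtain ⟨n, hn⟩ := h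
  have hu0 : (0 : ℝ) < (u : ℝ) := by exact_mod_cast hu
  have hY0 : (0 : ℝ) < (Y : ℝ) := by
    have : 1 ≤ Y := hu.trans huY
    exact_mod_cast this
  have hM0 : (0 : ℝ) < (M : ℝ) := by exact_mod_cast hM
  have hYr : 2 * (M : ℝ) * |(w : ℝ)| ≤ (Y : ℝ) := by
    have : ((2 * (M : ℤ) * |w| : ℤ) : ℝ) ≤ ((Y : ℤ) : ℝ) := by exact_mod_cast hY
    push_cast at this
    exact this
  have huYr : (u : ℝ) ≤ (Y : ℝ) := by exact_mod_cast huY
  -- the difference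
  have h1 : |(x - (b : ℝ) / (u : ℝ)) * ((M : ℝ) * (w : ℝ))| ≤ 1 / (2 * (u : ℝ)) := by
    rw [abs_mul, abs_mul, abs_of_pos hM0]
    calc |x - (b : ℝ) / (u : ℝ)| * ((M : ℝ) * |(w : ℝ)|)
        ≤ (1 / ((u : ℝ) * (Y : ℝ))) * ((Y : ℝ) / 2) := by
          apply mul_le_mul hx _ (by positivity) (by positivity)
          linarith
      _ = 1 / (2 * (u : ℝ)) := by
          field_simp
  have h2 : |(b : ℝ) / (u : ℝ) * ((M : ℝ) * (w : ℝ)) - (n : ℝ)| < 1 / (u : ℝ) := by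
    have e : (b : ℝ) / (u : ℝ) * ((M : ℝ) * (w : ℝ)) - (n : ℝ) =
        (x * (M : ℝ) * (w : ℝ) - (n : ℝ)) - (x - (b : ℝ) / (u : ℝ)) * ((M : ℝ) * (w : ℝ)) := by
      ring
    have h3 : (1 : ℝ) / (2 * (Y : ℝ)) ≤ 1 / (2 * (u : ℝ)) := by
      apply one_div_le_one_div_of_le (by positivity)
      linarith
    have h4 : (1 : ℝ) / (u : ℝ) = 1 / (2 * (u : ℝ)) + 1 / (2 * (u : ℝ)) := by
      field_simp
      norm_num
    rw [e, h4]
    refine lt_of_le_of_lt (abs_sub _ _) ?_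
    linarith
  have h5 : |(b : ℝ) * ((M : ℝ) * (w : ℝ)) - (n : ℝ) * (u : ℝ)| < 1 := by
    have e : (b : ℝ) * ((M : ℝ) * (w : ℝ)) - (n : ℝ) * (u : ℝ) =
        ((b : ℝ) / (u : ℝ) * ((M : ℝ) * (w : ℝ)) - (n : ℝ)) * (u : ℝ) := by
      field_simp
    rw [e, abs_mul, abs_of_pos hu0]
    calc |(b : ℝ) / (u : ℝ) * ((M : ℝ) * (w : ℝ)) - (n : ℝ)| * (u : ℝ)
        < 1 / (u : ℝ) * (u : ℝ) := mul_lt_mul_of_pos_right h2 hu0
      _ = 1 := by field_simp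
  have h6 : b * ((M : ℤ) * w) - n * (u : ℤ) = 0 := by
    have h7 : |b * ((M : ℤ) * w) - n * (u : ℤ)| < 1 := by
      have : ((|b * ((M : ℤ) * w) - n * (u : ℤ)| : ℤ) : ℝ) < 1 := by
        push_cast
        exact h5
      exact_mod_cast this
    exact Int.abs_lt_one_iff.mp h7
  have h8 : (u : ℤ) ∣ b * ((M : ℤ) * w) := ⟨n, by linarith⟩
  have h9 : (u : ℤ) ∣ (M : ℤ) * w := by
    have hc : IsCoprime (u : ℤ) b := by
      rw [Int.isCoprime_iff_gcd_eq_one, Int.gcd_comm]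
      exact hgb
    exact hc.dvd_of_dvd_mul_left h8
  have h10 : (u : ℤ) ∣ w := by
    have hc : IsCoprime (u : ℤ) (M : ℤ) := by
      exact Nat.isCoprime_iff_coprime.mpr hgM
    exact hc.dvd_of_dvd_mul_left h9
  refine ⟨h10, ?_⟩
  obtain ⟨v, hv⟩ := h10
  refine ⟨b * v, ?_⟩
  have h11 : n = b * (M : ℤ) * v := by
    have h12 : (u : ℤ) * (b * (M : ℤ) * v - n) = 0 := by
      rw [hv] at h6
      linarith
    rcases mul_eq_zero.mp h12 with h13 | h13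
    · have : (u : ℤ) ≠ 0 := by exact_mod_cast (by omega : u ≠ 0)
      exact absurd h13 this
    · linarith
  have h14 : x * (w : ℝ) - ((b * v : ℤ) : ℝ) = (x * (M : ℝ) * (w : ℝ) - (n : ℝ)) / (M : ℝ) := by
    rw [h11]
    push_cast
    field_simp
  rw [h14, abs_div, abs_of_pos hM0]
  exact div_le_div_of_nonneg_right hn hM0.le

/-- Dirichlet's theorem in the form used here -/
theorem dirichlet (x : ℝ) (Y : ℕ) (hY : 1 ≤ Y) :
    ∃ (b : ℤ) (u : ℕ), 1 ≤ u ∧ u ≤ Y ∧ Int.gcd b u = 1 ∧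
      |x - (b : ℝ) / (u : ℝ)| ≤ 1 / ((u : ℝ) * (Y : ℝ)) := by
  obtain ⟨r, hr, hd⟩ := Real.exists_rat_abs_sub_le_and_den_le x (by omega : 0 < Y)
  refine ⟨r.num, r.den, r.pos, hd, ?_, ?_⟩
  · have := r.reduced
    unfold Nat.Coprime at this
    simpa [Int.gcd] using this
  · have hpos : (0 : ℝ) < (r.den : ℝ) := by exact_mod_cast r.pos
    have hY0 : (0 : ℝ) < (Y : ℝ) := by exact_mod_cast hY
    have e : ((r : ℚ) : ℝ) = (r.num : ℝ) / (r.den : ℝ) := by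
      rw [Rat.cast_def]
    rw [e] at hr
    refine hr.trans ?_
    apply one_div_le_one_div_of_le (by positivity)
    nlinarith

end Pool.Agent.VM.H7
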