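import Mathlib
import Pool.Agent.Helper7_VM.Peel

/-!
# The set of dilations

Products of `i` primes from `(P, 2 P]` with the peeling property.
-/

set_option autoImplicit false

namespace Pool.Agent.VM.H7

open Pool.Agent.VM

/-- the primes in `(P, 2 P]` -/
def prs (P : ℕ) : Finset ℕ := (Finset.Ioc P (2 * P)).filter Nat.Prime

theorem prs_avoid (pdv : PdvStmt) (P B u u₁ : ℕ) (hP : 2 ≤ P) (hu : 1 ≤ u) (hu₁ : 1 ≤ u₁)
    (h1 : u < P ^ B) (h2 : u₁ < P ^ B) :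
    (prs P).card - 2 * B ≤ ((prs P).filter (fun p => ¬ p ∣ u ∧ ¬ p ∣ u₁)).card := by
  classical
  have hA := pdv P B u hP hu h1
  have hA' := pdv P B u₁ hP hu₁ h2
  have hsub : prs P ⊆ ((prs P).filter (fun p => ¬ p ∣ u ∧ ¬ p ∣ u₁)) ∪
      (((Finset.Ioc P (2 * P)).filter (fun d => d.Prime ∧ d ∣ u)) ∪
      ((Finset.Ioc P (2 * P)).filter (fun d => d.Prime ∧ d ∣ u₁))) := by
    intro p hp
    have hp' : p ∈ Finset.Ioc P (2 * P) ∧ p.Prime := by
      simpa [prs] using hp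
    by_cases c1 : p ∣ u
    · exact Finset.mem_union_right _ (Finset.mem_union_left _
        (Finset.mem_filter.mpr ⟨hp'.1, hp'.2, c1⟩))
    · by_cases c2 : p ∣ u₁
      · exact Finset.mem_union_right _ (Finset.mem_union_right _
          (Finset.mem_filter.mpr ⟨hp'.1, hp'.2, c2⟩))
      · exact Finset.mem_union_left _ (Finset.mem_filter.mpr ⟨hp, c1, c2⟩)
  have hc := Finset.card_le_card hsub
  have hc2 := Finset.card_union_le ((prs P).filter (fun p => ¬ p ∣ u ∧ ¬ p ∣ u₁))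
      (((Finset.Ioc P (2 * P)).filter (fun d => d.Prime ∧ d ∣ u)) ∪
      ((Finset.Ioc P (2 * P)).filter (fun d => d.Prime ∧ d ∣ u₁)))
  have hc3 := Finset.card_union_le ((Finset.Ioc P (2 * P)).filter (fun d => d.Prime ∧ d ∣ u))
      ((Finset.Ioc P (2 * P)).filter (fun d => d.Prime ∧ d ∣ u₁))
  omega

/-- the properties of the dilations -/
def Dil (κ W i P u₁ : ℕ) (x δ : ℝ) (d : ℕ) : Prop :=
  P ^ i ≤ d ∧ d ≤ (2 * P) ^ i ∧ Nat.Coprime d u₁ ∧
    ∀ (w : ℤ) (δ' : ℝ), |w| ≤ (W : ℤ) → δ' ≤ δ → Nr (x * (d : ℝ) ^ κ * (w : ℝ)) δ' →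
      Nr (x * (w : ℝ)) (δ' / (d : ℝ) ^ κ)

theorem nr_nonneg {x δ : ℝ} (h : Nr x δ) : 0 ≤ δ := by
  obtain ⟨z, hz⟩ := h
  exact (abs_nonneg _).trans hz

theorem dil (pdv : PdvStmt) (κ W P B u₁ : ℕ) (x δ : ℝ) (hP : 2 ≤ P) (hW : 1 ≤ W)
    (hu₁ : 1 ≤ u₁) (hB1 : 2 * (2 * P) ^ κ * W < P ^ B) (hB2 : u₁ < P ^ B)
    (hδ : δ < 1 / (2 * ((2 * (2 * P) ^ κ * W : ℕ) : ℝ))) :
    ∀ i : ℕ, (2 * P) ^ i < P ^ B → ∃ S : Finset ℕ, (∀ d ∈ S, Dil κ W i P u₁ x δ d) ∧
      ((prs P).card - 2 * B) ^ i ≤ B ^ i * S.card := by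
  classical
  intro i
  induction i with
  | zero =>
    intro _
    refine ⟨{1}, ?_, by simp⟩
    intro d hd
    rw [Finset.mem_singleton] at hd
    subst hd
    refine ⟨by simp, by simp, by simp, ?_⟩
    intro w δ' _ _ h
    simpa using h
  | succ i ih =>
    intro hi
    have h2P : 1 ≤ 2 * P := by omega
    have hi' : (2 * P) ^ i < P ^ B :=
      lt_of_le_of_lt (Nat.pow_le_pow_right h2P (Nat.le_succ i)) hi
    obtain ⟨S, hS, hcard⟩ := ih hi'
    have hY1 : 1 ≤ 2 * (2 * P) ^ κ * W := by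
      have : 1 ≤ (2 * P) ^ κ := Nat.one_le_pow _ _ h2P
      have h3 : 1 ≤ (2 * P) ^ κ * W := Nat.mul_pos this hW
      calc 1 ≤ (2 * P) ^ κ * W := h3
        _ ≤ 2 * ((2 * P) ^ κ * W) := by omega
        _ = 2 * (2 * P) ^ κ * W := by ring
    have hdir : ∀ d : ℕ, ∃ (b : ℤ) (u : ℕ), 1 ≤ u ∧ u ≤ 2 * (2 * P) ^ κ * W ∧ Int.gcd b u = 1 ∧
        |x * (d : ℝ) ^ κ - (b : ℝ) / (u : ℝ)| ≤
          1 / ((u : ℝ) * ((2 * (2 * P) ^ κ * W : ℕ) : ℝ)) :=
      fun d => dirichlet (x * (d : ℝ) ^ κ) (2 * (2 * P) ^ κ * W) hY1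
    choose bf uf hu1 huY hgcd habs using hdir
    -- the pairs
    let F : ℕ → Finset ℕ := fun d => (prs P).filter (fun p => ¬ p ∣ uf d ∧ ¬ p ∣ u₁)
    let T : Finset (Σ _ : ℕ, ℕ) := S.sigma F
    let g : (Σ _ : ℕ, ℕ) → ℕ := fun v => v.2 * v.1
    have hT : ∀ v ∈ T, v.1 ∈ S ∧ v.2 ∈ Finset.Ioc P (2 * P) ∧ v.2.Prime ∧ ¬ v.2 ∣ uf v.1 ∧
        ¬ v.2 ∣ u₁ := by
      intro v hv
      have h1 := (Finset.mem_sigma.mp hv)
      have h2 : v.2 ∈ (prs P).filter (fun p => ¬ p ∣ uf v.1 ∧ ¬ p ∣ u₁) := h1.2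
      rw [Finset.mem_filter] at h2
      have h3 : v.2 ∈ Finset.Ioc P (2 * P) ∧ v.2.Prime := by
        have := h2.1
        unfold prs at this
        exact Finset.mem_filter.mp this
      exact ⟨h1.1, h3.1, h3.2, h2.2.1, h2.2.2⟩
    refine ⟨T.image g, ?_, ?_⟩
    · intro n hn
      obtain ⟨v, hv, rfl⟩ := Finset.mem_image.mp hn
      obtain ⟨hvS, hvI, hvp, hvu, hvu₁⟩ := hT v hv
      obtain ⟨hd1, hd2, hd3, hd4⟩ := hS v.1 hvS
      have hI := Finset.mem_Ioc.mp hvI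
      refine ⟨?_, ?_, ?_, ?_⟩
      · calc P ^ (i + 1) = P * P ^ i := by ring
          _ ≤ v.2 * v.1 := Nat.mul_le_mul hI.1.le hd1
      · calc v.2 * v.1 ≤ (2 * P) * (2 * P) ^ i := Nat.mul_le_mul hI.2 hd2
          _ = (2 * P) ^ (i + 1) := by ring
      · exact Nat.Coprime.mul_left ((Nat.Prime.coprime_iff_not_dvd hvp).mpr hvu₁) hd3
      · intro w δ' hw hδ' hN
        have hδ0 := nr_nonneg hN
        have hp0 : (0 : ℝ) < (v.2 : ℝ) := by exact_mod_cast hvp.pos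
        have hp1 : (1 : ℝ) ≤ (v.2 : ℝ) ^ κ := by
          apply one_le_pow₀
          exact_mod_cast hvp.one_lt.le
        have e1 : x * ((g v : ℕ) : ℝ) ^ κ * (w : ℝ) =
            (x * (v.1 : ℝ) ^ κ) * ((v.2 ^ κ : ℕ) : ℝ) * (w : ℝ) := by
          simp only [g]
          push_cast
          ring
        rw [e1] at hN
        have hY : 2 * ((v.2 ^ κ : ℕ) : ℤ) * |w| ≤ ((2 * (2 * P) ^ κ * W : ℕ) : ℤ) := by
          have h4 : v.2 ^ κ ≤ (2 * P) ^ κ := Nat.pow_le_pow_left hI.2 κ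
          have h5 : ((v.2 ^ κ : ℕ) : ℤ) ≤ (((2 * P) ^ κ : ℕ) : ℤ) := by exact_mod_cast h4
          have h6 : (0 : ℤ) ≤ |w| := abs_nonneg w
          have h7 : (0 : ℤ) ≤ (((2 * P) ^ κ : ℕ) : ℤ) := by positivity
          calc 2 * ((v.2 ^ κ : ℕ) : ℤ) * |w| ≤ 2 * (((2 * P) ^ κ : ℕ) : ℤ) * (W : ℤ) := by
                nlinarith
            _ = ((2 * (2 * P) ^ κ * W : ℕ) : ℤ) := by push_cast; ring
        have hcop : Nat.Coprime (uf v.1) (v.2 ^ κ) :=
          Nat.Coprime.pow_right κ (((Nat.Prime.coprime_iff_not_dvd hvp).mpr hvu).symm)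
        have hpel := (pel (x * (v.1 : ℝ) ^ κ) δ' (v.2 ^ κ) (uf v.1) (2 * (2 * P) ^ κ * W)
          (bf v.1) w (Nat.one_le_pow _ _ hvp.pos) (hu1 v.1) (huY v.1) (hgcd v.1) hcop (habs v.1)
          hY (lt_of_le_of_lt hδ' hδ) hN).2
        have hle : δ' / ((v.2 ^ κ : ℕ) : ℝ) ≤ δ := by
          refine le_trans (div_le_self hδ0 ?_) hδ'
          push_cast
          exact hp1
        have hfin := hd4 w (δ' / ((v.2 ^ κ : ℕ) : ℝ)) hw hle hpel
        have e2 : δ' / ((v.2 ^ κ : ℕ) : ℝ) / (v.1 : ℝ) ^ κ = δ' / ((g v : ℕ) : ℝ) ^ κ := by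
          simp only [g]
          push_cast
          rw [div_div, mul_pow]
        rw [e2] at hfin
        exact hfin
    · have hTcard : ((prs P).card - 2 * B) * S.card ≤ T.card := by
        have : T.card = ∑ d ∈ S, (F d).card := Finset.card_sigma S F
        rw [this, mul_comm, ← smul_eq_mul]
        apply Finset.card_nsmul_le_sum
        intro d _
        exact prs_avoid pdv P B (uf d) u₁ hP (hu1 d) hu₁ (lt_of_le_of_lt (huY d) hB1) hB2
      have hfib : T.card ≤ B * (T.image g).card := by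
        apply Finset.card_le_mul_card_image
        intro n hn
        obtain ⟨v₀, hv₀, hv₀n⟩ := Finset.mem_image.mp hn
        obtain ⟨hvS, hvI, hvp, _, _⟩ := hT v₀ hv₀
        obtain ⟨hd1, hd2, _, _⟩ := hS v₀.1 hvS
        have hn1 : 1 ≤ n := by
          rw [← hv₀n]
          have h1 : 1 ≤ P ^ i := Nat.one_le_pow _ _ (by omega)
          exact Nat.mul_pos hvp.pos (by omega)
        have hn2 : n < P ^ B := by
          rw [← hv₀n]
          calc v₀.2 * v₀.1 ≤ (2 * P) * (2 * P) ^ i :=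
                Nat.mul_le_mul (Finset.mem_Ioc.mp hvI).2 hd2
            _ = (2 * P) ^ (i + 1) := by ring
            _ < P ^ B := hi
        have hA := pdv P B n hP hn1 hn2
        refine le_trans ?_ hA.le
        apply Finset.card_le_card_of_injOn (fun v => v.2)
        · intro v hv
          have hv' := Finset.mem_filter.mp (Finset.mem_coe.mp hv)
          obtain ⟨_, h2, h3, _, _⟩ := hT v hv'.1
          exact Finset.mem_coe.mpr (Finset.mem_filter.mpr ⟨h2, h3, ⟨v.1, hv'.2.symm⟩⟩)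
        · intro v hv v' hv' hvv
          have h1 := Finset.mem_filter.mp (Finset.mem_coe.mp hv)
          have h2 := Finset.mem_filter.mp (Finset.mem_coe.mp hv')
          obtain ⟨_, _, h3, _, _⟩ := hT v h1.1
          have h4 : v.2 * v.1 = v'.2 * v'.1 := h1.2.trans h2.2.symm
          have hvv' : v.2 = v'.2 := hvv
          have h5 : v.1 = v'.1 := by
            rw [hvv'] at h4
            rw [hvv'] at h3
            exact Nat.eq_of_mul_eq_mul_left h3.pos h4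
          exact Sigma.ext h5 (heq_of_eq hvv')
      calc ((prs P).card - 2 * B) ^ (i + 1) = ((prs P).card - 2 * B) * ((prs P).card - 2 * B) ^ i := by
            ring
        _ ≤ ((prs P).card - 2 * B) * (B ^ i * S.card) := Nat.mul_le_mul_left _ hcard
        _ = B ^ i * (((prs P).card - 2 * B) * S.card) := by ring
        _ ≤ B ^ i * T.card := Nat.mul_le_mul_left _ hTcard
        _ ≤ B ^ i * (B * (T.image g).card) := Nat.mul_le_mul_left _ hfib
        _ = B ^ (i + 1) * (T.image g).card := by ring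

end Pool.Agent.VM.H7
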