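import Mathlib
import Pool.Agent.Helper7_VM.Dil

/-!
# Counting points on lines
-/

set_option autoImplicit false

namespace Pool.Agent.VM.H7

open Pool.Agent.VM

theorem cnt_diff (A : Finset ℤ) (L M : ℕ) (hM : 1 ≤ M)
    (hA : ∀ a ∈ A, ∀ a' ∈ A, a - a' ≤ (L : ℤ))
    (hd : ∀ a ∈ A, ∀ a' ∈ A, (M : ℤ) ∣ a - a') : A.card ≤ L / M + 1 := by
  classical
  rcases A.eq_empty_or_nonempty with h0 | hne
  · rw [h0]
    simp
  · obtain ⟨a₀, ha₀, hmin⟩ := A.exists_min_image id hne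
    have hM0 : (0 : ℤ) < (M : ℤ) := by exact_mod_cast hM
    have hb : A.card ≤ (Finset.range (L / M + 1)).card := by
      apply Finset.card_le_card_of_injOn (fun a => ((a - a₀) / (M : ℤ)).toNat)
      · intro a ha
        have ha' : a ∈ A := Finset.mem_coe.mp ha
        have h1 : a₀ ≤ a := hmin a ha'
        have h4 : (a - a₀) / (M : ℤ) ≤ ((L / M : ℕ) : ℤ) := by
          push_cast
          exact Int.ediv_le_ediv hM0 (hA a ha' a₀ ha₀)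
        rw [Finset.coe_range, Set.mem_Iio]
        have h5 : 0 ≤ (a - a₀) / (M : ℤ) := Int.ediv_nonneg (by linarith) hM0.le
        have h6 : (((a - a₀) / (M : ℤ)).toNat : ℤ) = (a - a₀) / (M : ℤ) := Int.toNat_of_nonneg h5
        have h7 : (((a - a₀) / (M : ℤ)).toNat : ℤ) ≤ ((L / M : ℕ) : ℤ) := by
          rw [h6]
          exact h4
        have h8 : ((a - a₀) / (M : ℤ)).toNat ≤ L / M := by exact_mod_cast h7
        exact Nat.lt_succ_of_le h8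
      · intro a ha a' ha' haa
        have h1 : a₀ ≤ a := hmin a (Finset.mem_coe.mp ha)
        have h1' : a₀ ≤ a' := hmin a' (Finset.mem_coe.mp ha')
        have h5 : 0 ≤ (a - a₀) / (M : ℤ) := Int.ediv_nonneg (by linarith) hM0.le
        have h5' : 0 ≤ (a' - a₀) / (M : ℤ) := Int.ediv_nonneg (by linarith) hM0.le
        have h6 : (a - a₀) / (M : ℤ) = (a' - a₀) / (M : ℤ) := by
          rw [← Int.toNat_of_nonneg h5, ← Int.toNat_of_nonneg h5']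
          exact_mod_cast haa
        have h7 := Int.ediv_mul_cancel (hd a (Finset.mem_coe.mp ha) a₀ ha₀)
        have h7' := Int.ediv_mul_cancel (hd a' (Finset.mem_coe.mp ha') a₀ ha₀)
        rw [h6, h7'] at h7
        linarith
    rwa [Finset.card_range] at hb

theorem cnt_line (d d₁ q : ℕ) (c : ℤ) (R : Finset (ℤ × ℤ)) (hd : 1 ≤ d)
    (hR : ∀ p ∈ R, |p.1| ≤ (q : ℤ)) (hc : ∀ p ∈ R, (d₁ : ℤ) * p.1 - (d : ℤ) * p.2 = c) :
    R.card ≤ 2 * q / (d / Nat.gcd d d₁) + 1 := by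
  classical
  have hg : 0 < Nat.gcd d d₁ := Nat.gcd_pos_of_pos_left _ hd
  have hM : 1 ≤ d / Nat.gcd d d₁ :=
    Nat.div_pos (Nat.le_of_dvd hd (Nat.gcd_dvd_left d d₁)) hg
  have hd0 : (d : ℤ) ≠ 0 := by exact_mod_cast (by omega : d ≠ 0)
  have himg : (R.image (fun p => p.1)).card = R.card := by
    apply Finset.card_image_of_injOn
    intro p hp p' hp' hpp
    have h1 := hc p (Finset.mem_coe.mp hp)
    have h2 := hc p' (Finset.mem_coe.mp hp')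
    have hpp' : p.1 = p'.1 := hpp
    have h3 : (d : ℤ) * p.2 = (d : ℤ) * p'.2 := by
      rw [hpp'] at h1
      linarith
    exact Prod.ext hpp' (mul_left_cancel₀ hd0 h3)
  rw [← himg]
  apply cnt_diff _ (2 * q) (d / Nat.gcd d d₁) hM
  · intro a ha a' ha'
    obtain ⟨p, hp, rfl⟩ := Finset.mem_image.mp ha
    obtain ⟨p', hp', rfl⟩ := Finset.mem_image.mp ha'
    have e1 := abs_le.mp (hR p hp)
    have e2 := abs_le.mp (hR p' hp')
    push_cast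
    linarith [e1.2, e2.1]
  · intro a ha a' ha'
    obtain ⟨p, hp, rfl⟩ := Finset.mem_image.mp ha
    obtain ⟨p', hp', rfl⟩ := Finset.mem_image.mp ha'
    have h1 := hc p hp
    have h2 := hc p' hp'
    have h3 : (d₁ : ℤ) * (p.1 - p'.1) = (d : ℤ) * (p.2 - p'.2) := by linarith
    have hdg : (d : ℤ) = ((d / Nat.gcd d d₁ : ℕ) : ℤ) * ((Nat.gcd d d₁ : ℕ) : ℤ) := by
      exact_mod_cast (Nat.div_mul_cancel (Nat.gcd_dvd_left d d₁)).symm
    have hd₁g : (d₁ : ℤ) = ((d₁ / Nat.gcd d d₁ : ℕ) : ℤ) * ((Nat.gcd d d₁ : ℕ) : ℤ) := by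
      exact_mod_cast (Nat.div_mul_cancel (Nat.gcd_dvd_right d d₁)).symm
    have hg0 : ((Nat.gcd d d₁ : ℕ) : ℤ) ≠ 0 := by exact_mod_cast hg.ne'
    have h4 : ((d₁ / Nat.gcd d d₁ : ℕ) : ℤ) * (p.1 - p'.1) =
        ((d / Nat.gcd d d₁ : ℕ) : ℤ) * (p.2 - p'.2) := by
      apply mul_left_cancel₀ hg0
      calc ((Nat.gcd d d₁ : ℕ) : ℤ) * (((d₁ / Nat.gcd d d₁ : ℕ) : ℤ) * (p.1 - p'.1))
          = (((d₁ / Nat.gcd d d₁ : ℕ) : ℤ) * ((Nat.gcd d d₁ : ℕ) : ℤ)) * (p.1 - p'.1) := by ring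
        _ = (d₁ : ℤ) * (p.1 - p'.1) := by rw [← hd₁g]
        _ = (d : ℤ) * (p.2 - p'.2) := h3
        _ = (((d / Nat.gcd d d₁ : ℕ) : ℤ) * ((Nat.gcd d d₁ : ℕ) : ℤ)) * (p.2 - p'.2) := by
            rw [← hdg]
        _ = ((Nat.gcd d d₁ : ℕ) : ℤ) * (((d / Nat.gcd d d₁ : ℕ) : ℤ) * (p.2 - p'.2)) := by ring
    have hcop : IsCoprime ((d / Nat.gcd d d₁ : ℕ) : ℤ) ((d₁ / Nat.gcd d d₁ : ℕ) : ℤ) :=
      Nat.isCoprime_iff_coprime.mpr (Nat.coprime_div_gcd_div_gcd hg)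
    exact hcop.dvd_of_dvd_mul_left ⟨p.2 - p'.2, h4⟩

/-- the number of points in `[-q, q] ^ 2` if `d₁ r - d r₁` runs through one class modulo `M` in
an interval of length `L` -/
theorem cnt_str (d d₁ q L M : ℕ) (R : Finset (ℤ × ℤ)) (hd : 1 ≤ d) (hM : 1 ≤ M)
    (hR1 : ∀ p ∈ R, |p.1| ≤ (q : ℤ))
    (hL : ∀ p ∈ R, ∀ p' ∈ R,
      ((d₁ : ℤ) * p.1 - (d : ℤ) * p.2) - ((d₁ : ℤ) * p'.1 - (d : ℤ) * p'.2) ≤ (L : ℤ))
    (hR : ∀ p ∈ R, ∀ p' ∈ R, (M : ℤ) ∣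
      ((d₁ : ℤ) * p.1 - (d : ℤ) * p.2) - ((d₁ : ℤ) * p'.1 - (d : ℤ) * p'.2)) :
    R.card ≤ (2 * q / (d / Nat.gcd d d₁) + 1) * (L / M + 1) := by
  classical
  have h1 : R.card ≤ (2 * q / (d / Nat.gcd d d₁) + 1) *
      (R.image (fun p => (d₁ : ℤ) * p.1 - (d : ℤ) * p.2)).card := by
    apply Finset.card_le_mul_card_image
    intro c _
    apply cnt_line d d₁ q c _ hd
    · intro p hp
      exact hR1 p (Finset.mem_filter.mp hp).1
    · intro p hp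
      exact (Finset.mem_filter.mp hp).2
  have h2 : (R.image (fun p => (d₁ : ℤ) * p.1 - (d : ℤ) * p.2)).card ≤ L / M + 1 := by
    apply cnt_diff _ _ M hM
    · intro a ha a' ha'
      obtain ⟨p, hp, rfl⟩ := Finset.mem_image.mp ha
      obtain ⟨p', hp', rfl⟩ := Finset.mem_image.mp ha'
      exact hL p hp p' hp'
    · intro a ha a' ha'
      obtain ⟨p, hp, rfl⟩ := Finset.mem_image.mp ha
      obtain ⟨p', hp', rfl⟩ := Finset.mem_image.mp ha'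
      exact hR p hp p' hp'
  exact h1.trans (Nat.mul_le_mul_left _ h2)

/-- the real version -/
theorem cnt_strR (d d₁ q D M : ℕ) (L : ℝ) (R : Finset (ℤ × ℤ)) (hd : 1 ≤ d) (hD : 1 ≤ D)
    (hDd : D ≤ d) (hM : 1 ≤ M) (hL0 : 0 ≤ L)
    (hR1 : ∀ p ∈ R, |p.1| ≤ (q : ℤ))
    (hL : ∀ p ∈ R, ∀ p' ∈ R,
      (((((d₁ : ℤ) * p.1 - (d : ℤ) * p.2) - ((d₁ : ℤ) * p'.1 - (d : ℤ) * p'.2) : ℤ)) : ℝ) ≤ L)
    (hR : ∀ p ∈ R, ∀ p' ∈ R, (M : ℤ) ∣
      ((d₁ : ℤ) * p.1 - (d : ℤ) * p.2) - ((d₁ : ℤ) * p'.1 - (d : ℤ) * p'.2)) :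
    (R.card : ℝ) ≤ (2 * (q : ℝ) * (Nat.gcd d d₁ : ℝ) / (D : ℝ) + 1) * (L / (M : ℝ) + 1) := by
  have hD0 : (0 : ℝ) < (D : ℝ) := by exact_mod_cast hD
  have hd0 : (0 : ℝ) < (d : ℝ) := by exact_mod_cast hd
  have hM0 : (0 : ℝ) < (M : ℝ) := by exact_mod_cast hM
  have hg : 0 < Nat.gcd d d₁ := Nat.gcd_pos_of_pos_left _ hd
  have hg0 : (0 : ℝ) < (Nat.gcd d d₁ : ℝ) := by exact_mod_cast hg
  have h1 := cnt_str d d₁ q ⌊L⌋₊ M R hd hM hR1 (by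
    intro p hp p' hp'
    have h2 := hL p hp p' hp'
    by_contra h3
    push Not at h3
    have h4 : ((⌊L⌋₊ : ℕ) : ℤ) + 1 ≤
        ((d₁ : ℤ) * p.1 - (d : ℤ) * p.2) - ((d₁ : ℤ) * p'.1 - (d : ℤ) * p'.2) := by omega
    have h5 : ((⌊L⌋₊ : ℕ) : ℝ) + 1 ≤
        (((((d₁ : ℤ) * p.1 - (d : ℤ) * p.2) - ((d₁ : ℤ) * p'.1 - (d : ℤ) * p'.2) : ℤ)) : ℝ) := by
      exact_mod_cast h4
    have h6 := Nat.lt_floor_add_one L
    linarith) hR
  have h2 : (R.card : ℝ) ≤ ((2 * q / (d / Nat.gcd d d₁) : ℕ) + 1) * ((⌊L⌋₊ / M : ℕ) + 1) := by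
    exact_mod_cast h1
  refine h2.trans ?_
  have h3 : ((2 * q / (d / Nat.gcd d d₁) : ℕ) : ℝ) ≤ 2 * (q : ℝ) * (Nat.gcd d d₁ : ℝ) / (D : ℝ) := by
    refine Nat.cast_div_le.trans ?_
    have e1 : ((d / Nat.gcd d d₁ : ℕ) : ℝ) = (d : ℝ) / (Nat.gcd d d₁ : ℝ) :=
      Nat.cast_div (Nat.gcd_dvd_left d d₁) hg0.ne'
    rw [e1, div_div_eq_mul_div]
    push_cast
    apply div_le_div_of_nonneg_left (by positivity) hD0
    exact_mod_cast hDd
  have h4 : ((⌊L⌋₊ / M : ℕ) : ℝ) ≤ L / (M : ℝ) := by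
    refine Nat.cast_div_le.trans ?_
    exact div_le_div_of_nonneg_right (Nat.floor_le hL0) hM0.le
  apply mul_le_mul _ _ (by positivity) (by positivity)
  · linarith
  · linarith

/-- the sum of the greatest common divisors -/
theorem gcd_sum (S : Finset ℕ) (d Dm : ℕ) (hd : 1 ≤ d) (hS : ∀ e ∈ S, 1 ≤ e ∧ e ≤ Dm) :
    ∑ e ∈ S, Nat.gcd d e ≤ (Nat.divisors d).card * Dm := by
  classical
  have h1 : ∀ e ∈ S, Nat.gcd d e ≤ ∑ g ∈ (Nat.divisors d).filter (fun g => g ∣ e), g := by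
    intro e he
    apply Finset.single_le_sum (f := fun g : ℕ => g) (fun _ _ => Nat.zero_le _)
    rw [Finset.mem_filter, Nat.mem_divisors]
    exact ⟨⟨Nat.gcd_dvd_left d e, by omega⟩, Nat.gcd_dvd_right d e⟩
  have h2 : ∑ e ∈ S, ∑ g ∈ (Nat.divisors d).filter (fun g => g ∣ e), g =
      ∑ g ∈ Nat.divisors d, ∑ e ∈ S.filter (fun e => g ∣ e), g := by
    simp only [Finset.sum_filter]
    exact Finset.sum_comm
  have h3 : ∀ g ∈ Nat.divisors d, ∑ e ∈ S.filter (fun e => g ∣ e), g ≤ Dm := by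
    intro g hg
    rw [Finset.sum_const, smul_eq_mul]
    have hg0 : 0 < g := Nat.pos_of_mem_divisors hg
    have h4 : (S.filter (fun e => g ∣ e)).card ≤ Dm / g := by
      have h5 : S.filter (fun e => g ∣ e) ⊆ (Finset.Ioc 0 Dm).filter (fun e => g ∣ e) := by
        intro e he
        rw [Finset.mem_filter] at he
        rw [Finset.mem_filter, Finset.mem_Ioc]
        obtain ⟨h6, h7⟩ := hS e he.1
        exact ⟨⟨h6, h7⟩, he.2⟩
      refine (Finset.card_le_card h5).trans ?_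
      rw [Nat.Ioc_filter_dvd_card_eq_div]
    calc (S.filter (fun e => g ∣ e)).card * g ≤ Dm / g * g := Nat.mul_le_mul_right _ h4
      _ ≤ Dm := Nat.div_mul_le_self Dm g
  calc ∑ e ∈ S, Nat.gcd d e ≤ ∑ e ∈ S, ∑ g ∈ (Nat.divisors d).filter (fun g => g ∣ e), g :=
        Finset.sum_le_sum h1
    _ = ∑ g ∈ Nat.divisors d, ∑ e ∈ S.filter (fun e => g ∣ e), g := h2
    _ ≤ ∑ g ∈ Nat.divisors d, Dm := Finset.sum_le_sum h3
    _ = (Nat.divisors d).card * Dm := by rw [Finset.sum_const, smul_eq_mul]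

end Pool.Agent.VM.H7
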