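import Mathlib
import Pool.Agent.Helper7_VM.Str
import Pool.Agent.Helper7_VM.Stmts

/-!
# The special case: `k t` is very near a rational number with a small denominator
-/

set_option autoImplicit false

namespace Pool.Agent.VM.H7

open Pool.Agent.VM

theorem spc (x δs : ℝ) (W : ℕ) (hex : ∃ w : ℕ, 1 ≤ w ∧ w ≤ W ∧ Nr (x * (w : ℝ)) δs) :
    ∃ (ws : ℕ) (b : ℤ), 1 ≤ ws ∧ ws ≤ W ∧
      ∀ (X : ℤ) (δ₂ : ℝ), Nr (x * (X : ℝ)) δ₂ → (ws : ℝ) * δ₂ + δs * |(X : ℝ)| < 1 →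
        (ws : ℤ) ∣ X ∧ |x - (b : ℝ) / (ws : ℝ)| * |(X : ℝ)| ≤ δ₂ := by
  classical
  obtain ⟨h1, h2, h3⟩ := Nat.find_spec hex
  have hmin := fun m (hm : m < Nat.find hex) => Nat.find_min hex hm
  generalize Nat.find hex = ws at h1 h2 h3 hmin
  obtain ⟨b, hb⟩ := h3
  refine ⟨ws, b, h1, h2, ?_⟩
  have hws0 : (0 : ℝ) < (ws : ℝ) := by exact_mod_cast h1
  have hδ0 : 0 ≤ δs := (abs_nonneg _).trans hb
  -- the fraction is reduced
  have hg : Int.gcd b ws = 1 := by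
    have hgpos : 0 < Int.gcd b ws := by
      apply Int.gcd_pos_of_ne_zero_right
      exact_mod_cast (by omega : ws ≠ 0)
    obtain ⟨b₀, hb₀⟩ := Int.gcd_dvd_left (a := b) (b := (ws : ℤ))
    have hgd : Int.gcd b ws ∣ ws := by
      have := Int.gcd_dvd_right (a := b) (b := (ws : ℤ))
      exact_mod_cast this
    obtain ⟨w₀, hw₀⟩ := hgd
    generalize Int.gcd b ws = g at hgpos hb₀ hw₀
    by_contra hne
    have hg2 : 2 ≤ g := by omega
    have hw₀1 : 1 ≤ w₀ := by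
      rcases Nat.eq_zero_or_pos w₀ with h | h
      · rw [h] at hw₀
        omega
      · exact h
    have hlt : w₀ < ws := by
      rw [hw₀]
      nlinarith
    apply hmin w₀ hlt
    refine ⟨hw₀1, by omega, b₀, ?_⟩
    have hg0 : (0 : ℝ) < (g : ℝ) := by exact_mod_cast hgpos
    have e1 : (ws : ℝ) = (g : ℝ) * (w₀ : ℝ) := by exact_mod_cast hw₀
    have e2 : (b : ℝ) = (g : ℝ) * (b₀ : ℝ) := by exact_mod_cast hb₀
    have e3 : x * (w₀ : ℝ) - (b₀ : ℝ) = (x * (ws : ℝ) - (b : ℝ)) / (g : ℝ) := by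
      rw [e1, e2]
      field_simp
    rw [e3, abs_div, abs_of_pos hg0]
    refine (div_le_self (abs_nonneg _) ?_).trans hb
    exact_mod_cast hgpos
  intro X δ₂ hX hlt
  obtain ⟨n, hn⟩ := hX
  have h4 : |(b : ℝ) * (X : ℝ) - (n : ℝ) * (ws : ℝ)| < 1 := by
    have e : (b : ℝ) * (X : ℝ) - (n : ℝ) * (ws : ℝ) =
        (ws : ℝ) * (x * (X : ℝ) - (n : ℝ)) - (x * (ws : ℝ) - (b : ℝ)) * (X : ℝ) := by ring
    rw [e]
    refine lt_of_le_of_lt (abs_sub _ _) ?_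
    rw [abs_mul, abs_mul, abs_of_pos hws0]
    have e1 : (ws : ℝ) * |x * (X : ℝ) - (n : ℝ)| ≤ (ws : ℝ) * δ₂ :=
      mul_le_mul_of_nonneg_left hn hws0.le
    have e2 : |x * (ws : ℝ) - (b : ℝ)| * |(X : ℝ)| ≤ δs * |(X : ℝ)| :=
      mul_le_mul_of_nonneg_right hb (abs_nonneg _)
    linarith
  have h5 : b * X - n * (ws : ℤ) = 0 := by
    have h7 : |b * X - n * (ws : ℤ)| < 1 := by
      have : ((|b * X - n * (ws : ℤ)| : ℤ) : ℝ) < 1 := by
        push_cast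
        exact h4
      exact_mod_cast this
    exact Int.abs_lt_one_iff.mp h7
  have h8 : (ws : ℤ) ∣ b * X := ⟨n, by linarith⟩
  have hc : IsCoprime (ws : ℤ) b := by
    rw [Int.isCoprime_iff_gcd_eq_one, Int.gcd_comm]
    exact hg
  have h9 : (ws : ℤ) ∣ X := hc.dvd_of_dvd_mul_left h8
  refine ⟨h9, ?_⟩
  obtain ⟨j, hj⟩ := h9
  have hn2 : n = b * j := by
    have h12 : (ws : ℤ) * (b * j - n) = 0 := by
      rw [hj] at h5
      linarith
    rcases mul_eq_zero.mp h12 with h13 | h13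
    · have : (ws : ℤ) ≠ 0 := by exact_mod_cast (by omega : ws ≠ 0)
      exact absurd h13 this
    · linarith
  rw [← abs_mul]
  have e : (x - (b : ℝ) / (ws : ℝ)) * (X : ℝ) = x * (X : ℝ) - (n : ℝ) := by
    rw [hn2, hj]
    push_cast
    field_simp
  rw [e]
  exact hn

/-- the denominator of `k t` is not too small if `t` is far -/
theorem far_low (t : ℝ) (b : ℤ) (k N ws : ℕ) (hk : 1 ≤ k) (hws : 1 ≤ ws) (hF : Far k N t) :
    (N : ℝ) / 2 ≤ (k : ℝ) * (ws : ℝ) *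
      (1 + (N : ℝ) ^ k * |(k : ℝ) * t - (b : ℝ) / (ws : ℝ)|) := by
  have hk0 : (0 : ℝ) < (k : ℝ) := by exact_mod_cast hk
  have hk1 : (1 : ℝ) ≤ (k : ℝ) := by exact_mod_cast hk
  have hws0 : (0 : ℝ) < (ws : ℝ) := by exact_mod_cast hws
  have hkw : 0 < k * ws := Nat.mul_pos hk hws
  have h1 := hF ((b : ℚ) / ((k * ws : ℕ) : ℚ)).num ((b : ℚ) / ((k * ws : ℕ) : ℚ)).den
    ((b : ℚ) / ((k * ws : ℕ) : ℚ)).pos (by
      have := ((b : ℚ) / ((k * ws : ℕ) : ℚ)).reduced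
      unfold Nat.Coprime at this
      simpa [Int.gcd] using this)
  have hden : ((b : ℚ) / ((k * ws : ℕ) : ℚ)).den ≤ k * ws := by
    have h2 : ((((b : ℚ) / (((k * ws : ℕ) : ℤ) : ℚ)).den : ℕ) : ℤ) ∣ ((k * ws : ℕ) : ℤ) := by
      have h0 := Rat.den_dvd b ((k * ws : ℕ) : ℤ)
      rw [Rat.divInt_eq_div] at h0
      exact h0
    have h3 : ((b : ℚ) / (((k * ws : ℕ) : ℤ) : ℚ)) = ((b : ℚ) / ((k * ws : ℕ) : ℚ)) := by
      push_cast
      ring
    rw [h3] at h2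
    have h4 : ((b : ℚ) / ((k * ws : ℕ) : ℚ)).den ∣ k * ws := by exact_mod_cast h2
    exact Nat.le_of_dvd hkw h4
  have e1 : ((((b : ℚ) / ((k * ws : ℕ) : ℚ)).num : ℤ) : ℝ) /
      ((((b : ℚ) / ((k * ws : ℕ) : ℚ)).den : ℕ) : ℝ) = (b : ℝ) / ((k : ℝ) * (ws : ℝ)) := by
    have h5 : ((((b : ℚ) / ((k * ws : ℕ) : ℚ)) : ℚ) : ℝ) = (b : ℝ) / ((k : ℝ) * (ws : ℝ)) := by
      push_cast
      ring
    rw [← h5, Rat.cast_def]
  rw [e1] at h1
  have e2 : |t - (b : ℝ) / ((k : ℝ) * (ws : ℝ))| ≤ |(k : ℝ) * t - (b : ℝ) / (ws : ℝ)| := by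
    have e3 : (k : ℝ) * t - (b : ℝ) / (ws : ℝ) = (k : ℝ) * (t - (b : ℝ) / ((k : ℝ) * (ws : ℝ))) := by
      field_simp
    rw [e3, abs_mul, abs_of_pos hk0]
    exact le_mul_of_one_le_left (abs_nonneg _) hk1
  refine h1.trans ?_
  have e4 : (((b : ℚ) / ((k * ws : ℕ) : ℚ)).den : ℝ) ≤ (k : ℝ) * (ws : ℝ) := by
    exact_mod_cast hden
  apply mul_le_mul e4 _ (by positivity) (by positivity)
  have e5 : (N : ℝ) ^ k * |t - (b : ℝ) / ((k : ℝ) * (ws : ℝ))| ≤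
      (N : ℝ) ^ k * |(k : ℝ) * t - (b : ℝ) / (ws : ℝ)| :=
    mul_le_mul_of_nonneg_left e2 (by positivity)
  linarith

/-- Dirichlet approximations give numbers which are far -/
theorem far_of_approx (k q : ℕ) (t : ℝ) (a : ℤ) (hk : 2 ≤ k) (hq : 1 ≤ q)
    (hgcd : Int.gcd a q = 1) (ht : |t - (a : ℝ) / (q : ℝ)| ≤ 1 / (q : ℝ) ^ 2) : Far k q t := by
  intro b u hu hbu
  have hq0 : (0 : ℝ) < (q : ℝ) := by exact_mod_cast hq
  have hq1 : (1 : ℝ) ≤ (q : ℝ) := by exact_mod_cast hq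
  have hu0 : (0 : ℝ) < (u : ℝ) := by exact_mod_cast hu
  have hx0 : 0 ≤ |t - (b : ℝ) / (u : ℝ)| := abs_nonneg _
  by_cases hc : (q : ℝ) / 2 ≤ (u : ℝ)
  · have h1 : 0 ≤ (u : ℝ) * ((q : ℝ) ^ k * |t - (b : ℝ) / (u : ℝ)|) := by positivity
    nlinarith
  · push Not at hc
    have hne : (a : ℝ) * (u : ℝ) - (b : ℝ) * (q : ℝ) ≠ 0 := by
      intro h0
      have h1 : a * (u : ℤ) = b * (q : ℤ) := by
        have : (a : ℝ) * (u : ℝ) = (b : ℝ) * (q : ℝ) := by linarith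
        exact_mod_cast this
      have h2 : (q : ℤ) ∣ a * (u : ℤ) := ⟨b, by linarith⟩
      have hcop : IsCoprime (q : ℤ) a := by
        rw [Int.isCoprime_iff_gcd_eq_one, Int.gcd_comm]
        exact hgcd
      have h3 : (q : ℤ) ∣ (u : ℤ) := hcop.dvd_of_dvd_mul_left h2
      have h4 : q ∣ u := by exact_mod_cast h3
      have h5 := Nat.le_of_dvd hu h4
      have h6 : (q : ℝ) ≤ (u : ℝ) := by exact_mod_cast h5
      linarith
    have h1 : 1 ≤ |(a : ℝ) * (u : ℝ) - (b : ℝ) * (q : ℝ)| := by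
      have h2 : a * (u : ℤ) - b * (q : ℤ) ≠ 0 := by
        intro h3
        apply hne
        have : ((a * (u : ℤ) - b * (q : ℤ) : ℤ) : ℝ) = 0 := by exact_mod_cast h3
        push_cast at this
        exact this
      have h3 : (1 : ℤ) ≤ |a * (u : ℤ) - b * (q : ℤ)| := Int.one_le_abs h2
      have h4 : ((1 : ℤ) : ℝ) ≤ ((|a * (u : ℤ) - b * (q : ℤ)| : ℤ) : ℝ) := by exact_mod_cast h3
      push_cast at h4
      exact h4
    have h2 : |(a : ℝ) / (q : ℝ) - (b : ℝ) / (u : ℝ)| =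
        |(a : ℝ) * (u : ℝ) - (b : ℝ) * (q : ℝ)| / ((q : ℝ) * (u : ℝ)) := by
      rw [div_sub_div _ _ hq0.ne' hu0.ne', abs_div, abs_of_pos (by positivity : (0 : ℝ) < (q : ℝ) * (u : ℝ))]
      congr 1
      congr 1
      ring
    have h3 : 1 / ((q : ℝ) * (u : ℝ)) ≤ |(a : ℝ) / (q : ℝ) - (b : ℝ) / (u : ℝ)| := by
      rw [h2]
      exact div_le_div_of_nonneg_right h1 (by positivity)
    have h4 : |(a : ℝ) / (q : ℝ) - (b : ℝ) / (u : ℝ)| ≤
        |t - (a : ℝ) / (q : ℝ)| + |t - (b : ℝ) / (u : ℝ)| := by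
      have e : (a : ℝ) / (q : ℝ) - (b : ℝ) / (u : ℝ) =
          (t - (b : ℝ) / (u : ℝ)) - (t - (a : ℝ) / (q : ℝ)) := by ring
      rw [e, add_comm]
      exact abs_sub _ _
    have h5 : 1 / (2 * ((q : ℝ) * (u : ℝ))) ≤ |t - (b : ℝ) / (u : ℝ)| := by
      have h6 : 1 / (q : ℝ) ^ 2 ≤ 1 / (2 * ((q : ℝ) * (u : ℝ))) := by
        apply one_div_le_one_div_of_le (by positivity)
        nlinarith
      have h7 : 1 / ((q : ℝ) * (u : ℝ)) = 1 / (2 * ((q : ℝ) * (u : ℝ))) + 1 / (2 * ((q : ℝ) * (u : ℝ))) := by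
        field_simp
        norm_num
      linarith
    have h6 : (q : ℝ) ^ 2 ≤ (q : ℝ) ^ k := pow_le_pow_right₀ hq1 hk
    have h7 : (q : ℝ) / 2 ≤ (u : ℝ) * ((q : ℝ) ^ k * |t - (b : ℝ) / (u : ℝ)|) := by
      calc (q : ℝ) / 2 = (u : ℝ) * ((q : ℝ) ^ 2 * (1 / (2 * ((q : ℝ) * (u : ℝ))))) := by
            field_simp
        _ ≤ (u : ℝ) * ((q : ℝ) ^ k * |t - (b : ℝ) / (u : ℝ)|) := by
            apply mul_le_mul_of_nonneg_left _ hu0.le
            exact mul_le_mul h6 h5 (by positivity) (by positivity)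
    linarith

/-- the dilations with the same `k`-th power modulo `ws` -/
theorem cnt_root (k ws d₁ : ℕ) (S : Finset ℕ) (hws : 1 ≤ ws)
    (hS : ∀ d ∈ S, ∀ d' ∈ S, (d : ℤ) - (d' : ℤ) < (ws : ℤ))
    (hScop : ∀ d ∈ S, Nat.Coprime d ws) (hd₁ : Nat.Coprime d₁ ws)
    (hk : ∀ d ∈ S, (ws : ℤ) ∣ (d : ℤ) ^ k - (d₁ : ℤ) ^ k) :
    S.card ≤ ((Finset.range ws).filter (fun x => Nat.Coprime x ws ∧ x ^ k ≡ 1 [MOD ws])).card := by
  classical
  obtain ⟨e, hecop, heq⟩ : ∃ e : ℕ, Nat.Coprime e ws ∧ d₁ * e ≡ 1 [MOD ws] := by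
    rcases Nat.lt_or_ge 1 ws with h1 | h1
    · obtain ⟨e, _, he⟩ := Nat.exists_mul_mod_eq_one_of_coprime hd₁ h1
      have heq : d₁ * e ≡ 1 [MOD ws] := by
        unfold Nat.ModEq
        rw [he, Nat.mod_eq_of_lt h1]
      refine ⟨e, ?_, heq⟩
      have h2 : Nat.gcd (d₁ * e) ws = 1 := by
        rw [Nat.ModEq.gcd_eq heq]
        simp
      exact Nat.Coprime.coprime_mul_left h2
    · have h2 : ws = 1 := by omega
      rw [h2]
      exact ⟨1, by simp, Nat.modEq_one⟩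
  apply Finset.card_le_card_of_injOn (fun d => (d * e) % ws)
  · intro d hd
    have hd' := Finset.mem_coe.mp hd
    rw [Finset.mem_coe, Finset.mem_filter, Finset.mem_range]
    refine ⟨Nat.mod_lt _ (by omega), ?_, ?_⟩
    · have h3 : Nat.Coprime (d * e) ws := Nat.Coprime.mul_left (hScop d hd') hecop
      have h4 : (d * e) % ws ≡ d * e [MOD ws] := Nat.mod_modEq _ _
      unfold Nat.Coprime
      rw [Nat.ModEq.gcd_eq h4]
      exact h3
    · have h4 : (d * e) % ws ≡ d * e [MOD ws] := Nat.mod_modEq _ _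
      have h5 : d ^ k ≡ d₁ ^ k [MOD ws] := by
        apply Nat.ModEq.symm
        rw [Nat.modEq_iff_dvd]
        push_cast
        exact hk d hd'
      calc ((d * e) % ws) ^ k ≡ (d * e) ^ k [MOD ws] := Nat.ModEq.pow k h4
        _ = d ^ k * e ^ k := by rw [mul_pow]
        _ ≡ d₁ ^ k * e ^ k [MOD ws] := Nat.ModEq.mul_right _ h5
        _ = (d₁ * e) ^ k := by rw [mul_pow]
        _ ≡ 1 ^ k [MOD ws] := Nat.ModEq.pow k heq
        _ = 1 := by rw [one_pow]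
  · intro d hd d' hd' hdd
    have h3 : d * e ≡ d' * e [MOD ws] := hdd
    have h4 : d * (e * d₁) ≡ d' * (e * d₁) [MOD ws] := by
      have := Nat.ModEq.mul_right d₁ h3
      rw [mul_assoc, mul_assoc] at this
      exact this
    have h5 : e * d₁ ≡ 1 [MOD ws] := by
      rw [mul_comm]
      exact heq
    have h6 : d ≡ d' [MOD ws] := by
      calc d = d * 1 := by ring
        _ ≡ d * (e * d₁) [MOD ws] := Nat.ModEq.mul_left _ h5.symm
        _ ≡ d' * (e * d₁) [MOD ws] := h4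
        _ ≡ d' * 1 [MOD ws] := Nat.ModEq.mul_left _ h5
        _ = d' := by ring
    have h7 := hS d (Finset.mem_coe.mp hd) d' (Finset.mem_coe.mp hd')
    have h8 := hS d' (Finset.mem_coe.mp hd') d (Finset.mem_coe.mp hd)
    have h9 : (ws : ℤ) ∣ (d' : ℤ) - (d : ℤ) := Nat.modEq_iff_dvd.mp h6
    have h10 : |(d' : ℤ) - (d : ℤ)| < (ws : ℤ) := by
      rw [abs_lt]
      constructor <;> linarith
    have h11 := Int.eq_zero_of_abs_lt_dvd h9 h10
    have h12 : (d' : ℤ) = (d : ℤ) := by linarith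
    exact_mod_cast h12.symm

end Pool.Agent.VM.H7
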