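import Mathlib
import Pool.Agent.Helper7_VM.Spc

/-!
# The energy bound under numerical conditions
-/

set_option autoImplicit false

namespace Pool.Agent.VM.H7

open Pool.Agent.VM

/-- the two highest coordinates are close -/
def Close2 (k K : ℕ) (t s₁ : ℝ) (v : (ℕ × ℤ) × (ℕ × ℤ)) : Prop :=
  Nr (t * (v.1.1 : ℝ) ^ k - t * (v.2.1 : ℝ) ^ k) (1 / (K : ℝ) ^ k) ∧
  Nr ((v.1.1 : ℝ) ^ (k - 1) * ((k : ℝ) * t * (v.1.2 : ℝ) + s₁) -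
    (v.2.1 : ℝ) ^ (k - 1) * ((k : ℝ) * t * (v.2.2 : ℝ) + s₁)) (1 / (K : ℝ) ^ (k - 1))

/-- the tolerance -/
noncomputable def del (k q K : ℕ) : ℝ := (2 * (k : ℝ) + 2) * (q : ℝ) / (K : ℝ) ^ k

theorem del_nonneg (k q K : ℕ) : 0 ≤ del k q K := by
  unfold del
  positivity

/-- two points of the same pair `(d, d₁)` -/
theorem two (k q K Dm d d₁ : ℕ) (t s₁ : ℝ) (r r₁ r' r₁' : ℤ) (hk : 1 ≤ k) (hK : 1 ≤ K)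
    (hd : d ≤ Dm) (hDK : Dm * K ≤ q) (hr : |r| ≤ (q : ℤ)) (hr' : |r'| ≤ (q : ℤ))
    (h : Close2 k K t s₁ ((d, r), (d₁, r₁))) (h' : Close2 k K t s₁ ((d, r'), (d₁, r₁'))) :
    Nr ((k : ℝ) * t * (d₁ : ℝ) ^ (k - 1) *
      ((((d₁ : ℤ) * r - (d : ℤ) * r₁) - ((d₁ : ℤ) * r' - (d : ℤ) * r₁') : ℤ) : ℝ))
      (del k q K) := by
  obtain ⟨⟨zA, hA⟩, ⟨zB, hB⟩⟩ := h
  obtain ⟨_, ⟨zB', hB'⟩⟩ := h'
  simp only at hA hB hB'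
  have hK0 : (0 : ℝ) < (K : ℝ) := by exact_mod_cast hK
  have hkp : ∀ y : ℝ, y ^ k = y ^ (k - 1) * y := by
    intro y
    rw [← pow_succ]
    congr 1
    omega
  refine ⟨(d : ℤ) * (zB - zB') - (k : ℤ) * (r - r') * zA, ?_⟩
  have e : (k : ℝ) * t * (d₁ : ℝ) ^ (k - 1) *
      ((((d₁ : ℤ) * r - (d : ℤ) * r₁) - ((d₁ : ℤ) * r' - (d : ℤ) * r₁') : ℤ) : ℝ) -
      (((d : ℤ) * (zB - zB') - (k : ℤ) * (r - r') * zA : ℤ) : ℝ) =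
      (d : ℝ) * (((d : ℝ) ^ (k - 1) * ((k : ℝ) * t * (r : ℝ) + s₁) -
        (d₁ : ℝ) ^ (k - 1) * ((k : ℝ) * t * (r₁ : ℝ) + s₁)) - (zB : ℝ)) -
      (d : ℝ) * (((d : ℝ) ^ (k - 1) * ((k : ℝ) * t * (r' : ℝ) + s₁) -
        (d₁ : ℝ) ^ (k - 1) * ((k : ℝ) * t * (r₁' : ℝ) + s₁)) - (zB' : ℝ)) -
      (k : ℝ) * ((r : ℝ) - (r' : ℝ)) * ((t * (d : ℝ) ^ k - t * (d₁ : ℝ) ^ k) - (zA : ℝ)) := by
    rw [hkp (d : ℝ), hkp (d₁ : ℝ)]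
    push_cast
    ring
  rw [e]
  have hd0 : (0 : ℝ) ≤ (d : ℝ) := by positivity
  have hk0 : (0 : ℝ) ≤ (k : ℝ) := by positivity
  have b1 : |(d : ℝ) * (((d : ℝ) ^ (k - 1) * ((k : ℝ) * t * (r : ℝ) + s₁) -
        (d₁ : ℝ) ^ (k - 1) * ((k : ℝ) * t * (r₁ : ℝ) + s₁)) - (zB : ℝ))| ≤
      (d : ℝ) * (1 / (K : ℝ) ^ (k - 1)) := by
    rw [abs_mul, abs_of_nonneg hd0]
    exact mul_le_mul_of_nonneg_left hB hd0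
  have b2 : |(d : ℝ) * (((d : ℝ) ^ (k - 1) * ((k : ℝ) * t * (r' : ℝ) + s₁) -
        (d₁ : ℝ) ^ (k - 1) * ((k : ℝ) * t * (r₁' : ℝ) + s₁)) - (zB' : ℝ))| ≤
      (d : ℝ) * (1 / (K : ℝ) ^ (k - 1)) := by
    rw [abs_mul, abs_of_nonneg hd0]
    exact mul_le_mul_of_nonneg_left hB' hd0
  have hrr : |(r : ℝ) - (r' : ℝ)| ≤ 2 * (q : ℝ) := by
    have h1 : |(r : ℝ)| ≤ (q : ℝ) := by exact_mod_cast hr
    have h2 : |(r' : ℝ)| ≤ (q : ℝ) := by exact_mod_cast hr'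
    have h3 := abs_sub (r : ℝ) (r' : ℝ)
    linarith
  have b3 : |(k : ℝ) * ((r : ℝ) - (r' : ℝ)) * ((t * (d : ℝ) ^ k - t * (d₁ : ℝ) ^ k) - (zA : ℝ))| ≤
      (k : ℝ) * (2 * (q : ℝ)) * (1 / (K : ℝ) ^ k) := by
    rw [abs_mul, abs_mul, abs_of_nonneg hk0]
    apply mul_le_mul _ hA (abs_nonneg _) (by positivity)
    exact mul_le_mul_of_nonneg_left hrr hk0
  have b4 : (d : ℝ) * (1 / (K : ℝ) ^ (k - 1)) ≤ (q : ℝ) / (K : ℝ) ^ k := by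
    have h1 : (d : ℝ) * (K : ℝ) ≤ (q : ℝ) := by
      have h2 : d * K ≤ q := (Nat.mul_le_mul_right K hd).trans hDK
      exact_mod_cast h2
    rw [hkp (K : ℝ), mul_one_div, div_le_div_iff₀ (by positivity) (by positivity)]
    calc (d : ℝ) * ((K : ℝ) ^ (k - 1) * (K : ℝ)) = ((d : ℝ) * (K : ℝ)) * (K : ℝ) ^ (k - 1) := by
          ring
      _ ≤ (q : ℝ) * (K : ℝ) ^ (k - 1) := mul_le_mul_of_nonneg_right h1 (by positivity)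
  have e5 : del k q K = (q : ℝ) / (K : ℝ) ^ k + (q : ℝ) / (K : ℝ) ^ k +
      (k : ℝ) * (2 * (q : ℝ)) * (1 / (K : ℝ) ^ k) := by
    unfold del
    ring
  rw [e5]
  refine (abs_sub _ _).trans ?_
  refine add_le_add ?_ b3
  refine (abs_sub _ _).trans ?_
  exact add_le_add (b1.trans b4) (b2.trans b4)

/-- the numerical conditions -/
structure NC (k N K P i W : ℕ) : Prop where
  hk : 2 ≤ k
  hN : 1 ≤ N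
  hK : 1 ≤ K
  hP : 1 ≤ P
  hW : W = 4 * (2 * P) ^ i * N
  n1 : (2 * P) ^ i * K ≤ N
  n1' : N ≤ 2 * (2 * P) ^ i * K
  n2 : del k N K < 1 / (2 * ((2 * (2 * P) ^ (k - 1) * W : ℕ) : ℝ))
  n3 : 2 ^ (i * (k - 1)) ≤ N
  n4 : 4 * k * (1 + k * 2 ^ ((i + 1) * k)) < K

theorem NC.delW {k N K P i W : ℕ} (h : NC k N K P i W) : 4 * del k N K * (W : ℝ) < 1 := by
  have h2P : 1 ≤ (2 * P) ^ (k - 1) := Nat.one_le_pow _ _ (by have := h.hP; omega)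
  have hW1 : 1 ≤ W := by
    rw [h.hW]
    have h3 : 1 ≤ (2 * P) ^ i := Nat.one_le_pow _ _ (by have := h.hP; omega)
    have := h.hN
    nlinarith
  have hW0 : (0 : ℝ) < (W : ℝ) := by exact_mod_cast hW1
  have h4 : (0 : ℝ) < 2 * ((2 * (2 * P) ^ (k - 1) * W : ℕ) : ℝ) := by
    have : 0 < 2 * (2 * P) ^ (k - 1) * W := by positivity
    have h5 : (0 : ℝ) < ((2 * (2 * P) ^ (k - 1) * W : ℕ) : ℝ) := by exact_mod_cast this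
    linarith
  have h5 := h.n2
  rw [lt_div_iff₀ h4] at h5
  refine lt_of_le_of_lt ?_ h5
  have h6 : (4 : ℝ) * (W : ℝ) ≤ 2 * ((2 * (2 * P) ^ (k - 1) * W : ℕ) : ℝ) := by
    have h7 : 4 * W ≤ 2 * (2 * (2 * P) ^ (k - 1) * W) := by nlinarith
    exact_mod_cast h7
  have h8 := del_nonneg k N K
  nlinarith

theorem nr_natAbs {x δ : ℝ} {w : ℤ} (h : Nr (x * (w : ℝ)) δ) : Nr (x * (w.natAbs : ℝ)) δ := by
  obtain ⟨z, hz⟩ := h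
  have e0 : ((w.natAbs : ℕ) : ℝ) = |(w : ℝ)| := by
    rw [Nat.cast_natAbs]
    push_cast
    rfl
  rcases abs_choice (w : ℝ) with h1 | h1
  · refine ⟨z, ?_⟩
    rw [e0, h1]
    exact hz
  · refine ⟨-z, ?_⟩
    have e2 : x * ((w.natAbs : ℕ) : ℝ) - ((-z : ℤ) : ℝ) = -(x * (w : ℝ) - (z : ℝ)) := by
      rw [e0, h1]
      push_cast
      ring
    rw [e2, abs_neg]
    exact hz

/-- the size of `w` -/
theorem w_le {k N K P i W : ℕ} (h : NC k N K P i W) (d d₁ : ℕ) (hd : d ≤ (2 * P) ^ i)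
    (hd₁ : d₁ ≤ (2 * P) ^ i) (r r₁ r' r₁' : ℤ) (hr : |r| ≤ (N : ℤ)) (hr₁ : |r₁| ≤ (N : ℤ))
    (hr' : |r'| ≤ (N : ℤ)) (hr₁' : |r₁'| ≤ (N : ℤ)) :
    |((d₁ : ℤ) * r - (d : ℤ) * r₁) - ((d₁ : ℤ) * r' - (d : ℤ) * r₁')| ≤ (W : ℤ) := by
  rw [h.hW]
  have e3 : (d : ℤ) ≤ (((2 * P) ^ i : ℕ) : ℤ) := by exact_mod_cast hd
  have e4 : (d₁ : ℤ) ≤ (((2 * P) ^ i : ℕ) : ℤ) := by exact_mod_cast hd₁
  have e5 : (0 : ℤ) ≤ (d : ℤ) := by positivity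
  have e6 : (0 : ℤ) ≤ (d₁ : ℤ) := by positivity
  have b : ∀ (c : ℤ) (y : ℤ), 0 ≤ c → c ≤ (((2 * P) ^ i : ℕ) : ℤ) → |y| ≤ (N : ℤ) →
      |c * y| ≤ (((2 * P) ^ i : ℕ) : ℤ) * (N : ℤ) := by
    intro c y hc hc' hy
    rw [abs_mul, abs_of_nonneg hc]
    exact mul_le_mul hc' hy (abs_nonneg _) (by positivity)
  have b1 := b d₁ r e6 e4 hr
  have b2 := b d r₁ e5 e3 hr₁
  have b3 := b d₁ r' e6 e4 hr'
  have b4 := b d r₁' e5 e3 hr₁'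
  have c1 := abs_sub ((d₁ : ℤ) * r) ((d : ℤ) * r₁)
  have c2 := abs_sub ((d₁ : ℤ) * r') ((d : ℤ) * r₁')
  have c3 := abs_sub ((d₁ : ℤ) * r - (d : ℤ) * r₁) ((d₁ : ℤ) * r' - (d : ℤ) * r₁')
  push_cast at *
  linarith

/-- the difference `w` of two points is peeled -/
theorem w_nr {k N K P i W u₁ : ℕ} {t : ℝ} (h : NC k N K P i W) (s₁ : ℝ) (d d₁ : ℕ)
    (hd : Dil (k - 1) W i P u₁ ((k : ℝ) * t) (del k N K) d)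
    (hd₁ : Dil (k - 1) W i P u₁ ((k : ℝ) * t) (del k N K) d₁)
    (r r₁ r' r₁' : ℤ) (hr : |r| ≤ (N : ℤ)) (hr₁ : |r₁| ≤ (N : ℤ))
    (hr' : |r'| ≤ (N : ℤ)) (hr₁' : |r₁'| ≤ (N : ℤ))
    (hC : Close2 k K t s₁ ((d, r), (d₁, r₁))) (hC' : Close2 k K t s₁ ((d, r'), (d₁, r₁'))) :
    Nr ((k : ℝ) * t * ((((d₁ : ℤ) * r - (d : ℤ) * r₁) - ((d₁ : ℤ) * r' - (d : ℤ) * r₁') : ℤ) : ℝ))
      (del k N K / ((P : ℝ) ^ i) ^ (k - 1)) := by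
  have h1 := two k N K ((2 * P) ^ i) d d₁ t s₁ r r₁ r' r₁' (by have := h.hk; omega) h.hK hd.2.1
    h.n1 hr hr' hC hC'
  have h2 := hd₁.2.2.2 (((d₁ : ℤ) * r - (d : ℤ) * r₁) - ((d₁ : ℤ) * r' - (d : ℤ) * r₁'))
    (del k N K) (w_le h d d₁ hd.2.1 hd₁.2.1 r r₁ r' r₁' hr hr₁ hr' hr₁') le_rfl h1
  refine nr_mono h2 ?_
  have hP0 : (0 : ℝ) < (P : ℝ) := by exact_mod_cast h.hP
  apply div_le_div_of_nonneg_left (del_nonneg k N K) (by positivity)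
  apply pow_le_pow_left₀ (by positivity)
  exact_mod_cast hd₁.1

/-- the conditions on the number `u₁`: either nothing special happens, or `u₁` is the special
denominator -/
def Sel (k N K P i W : ℕ) (t : ℝ) (u₁ : ℕ) : Prop :=
  (u₁ = 1 ∧ ∀ w : ℕ, 1 ≤ w → w ≤ W →
    ¬ Nr ((k : ℝ) * t * (w : ℝ)) (del k N K / ((P : ℝ) ^ i) ^ (k - 1))) ∨
  (1 ≤ u₁ ∧ u₁ ≤ W ∧ ∃ b : ℤ,
    ∀ (X : ℤ) (δ₂ : ℝ), Nr ((k : ℝ) * t * (X : ℝ)) δ₂ →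
      (u₁ : ℝ) * δ₂ + del k N K / ((P : ℝ) ^ i) ^ (k - 1) * |(X : ℝ)| < 1 →
      (u₁ : ℤ) ∣ X ∧ |(k : ℝ) * t - (b : ℝ) / (u₁ : ℝ)| * |(X : ℝ)| ≤ δ₂)

theorem sel_exists (k N K P i W : ℕ) (t : ℝ) : ∃ u₁ : ℕ, 1 ≤ u₁ ∧ u₁ ≤ W + 1 ∧
    Sel k N K P i W t u₁ := by
  by_cases h : ∃ w : ℕ, 1 ≤ w ∧ w ≤ W ∧
      Nr ((k : ℝ) * t * (w : ℝ)) (del k N K / ((P : ℝ) ^ i) ^ (k - 1))
  · obtain ⟨ws, b, h1, h2, h4⟩ := spc ((k : ℝ) * t) (del k N K / ((P : ℝ) ^ i) ^ (k - 1)) W h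
    exact ⟨ws, h1, by omega, Or.inr ⟨h1, h2, b, h4⟩⟩
  · refine ⟨1, le_rfl, by omega, Or.inl ⟨rfl, ?_⟩⟩
    intro w h1 h2 h3
    exact h ⟨w, h1, h2, h3⟩

/-- one pair `(d, d₁)`, nothing special -/
theorem pair_non {k N K P i W : ℕ} {t : ℝ} (h : NC k N K P i W) (s₁ : ℝ) (u₁ d d₁ : ℕ)
    (hS : ∀ w : ℕ, 1 ≤ w → w ≤ W →
      ¬ Nr ((k : ℝ) * t * (w : ℝ)) (del k N K / ((P : ℝ) ^ i) ^ (k - 1)))
    (hd : Dil (k - 1) W i P u₁ ((k : ℝ) * t) (del k N K) d)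
    (hd₁ : Dil (k - 1) W i P u₁ ((k : ℝ) * t) (del k N K) d₁) (R : Finset (ℤ × ℤ))
    (hR : ∀ p ∈ R, |p.1| ≤ (N : ℤ) ∧ |p.2| ≤ (N : ℤ) ∧ Close2 k K t s₁ ((d, p.1), (d₁, p.2))) :
    (R.card : ℝ) ≤ 2 * (N : ℝ) * (Nat.gcd d d₁ : ℝ) / ((P ^ i : ℕ) : ℝ) + 1 := by
  have hD : 1 ≤ P ^ i := Nat.one_le_pow _ _ h.hP
  have hw0 : ∀ p ∈ R, ∀ p' ∈ R,
      ((d₁ : ℤ) * p.1 - (d : ℤ) * p.2) - ((d₁ : ℤ) * p'.1 - (d : ℤ) * p'.2) = 0 := by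
    intro p hp p' hp'
    obtain ⟨a1, a2, a3⟩ := hR p hp
    obtain ⟨b1, b2, b3⟩ := hR p' hp'
    have h1 := w_nr h s₁ d d₁ hd hd₁ p.1 p.2 p'.1 p'.2 a1 a2 b1 b2 a3 b3
    have h2 := w_le h d d₁ hd.2.1 hd₁.2.1 p.1 p.2 p'.1 p'.2 a1 a2 b1 b2
    generalize ((d₁ : ℤ) * p.1 - (d : ℤ) * p.2) - ((d₁ : ℤ) * p'.1 - (d : ℤ) * p'.2) = w at h1 h2
    by_contra hne
    have h3 : 1 ≤ w.natAbs := Nat.one_le_iff_ne_zero.mpr (Int.natAbs_ne_zero.mpr hne)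
    have h4 : w.natAbs ≤ W := by
      have : (w.natAbs : ℤ) ≤ (W : ℤ) := by
        rw [Int.natCast_natAbs]
        exact h2
      exact_mod_cast this
    exact hS _ h3 h4 (nr_natAbs h1)
  have h5 := cnt_strR d d₁ N (P ^ i) 1 0 R (by have := hd.1; omega) hD hd.1 le_rfl le_rfl
    (fun p hp => (hR p hp).1)
    (fun p hp p' hp' => by rw [hw0 p hp p' hp']; simp)
    (fun p hp p' hp' => by rw [hw0 p hp p' hp']; simp)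
  refine h5.trans ?_
  simp

end Pool.Agent.VM.H7
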