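import Mathlib
import Pool.Agent.Helper7_VM.Ene

/-!
# The energy bound: the special case
-/

set_option autoImplicit false

namespace Pool.Agent.VM.H7

open Pool.Agent.VM

theorem NC.n5 {k N K P i W : ℕ} (h : NC k N K P i W) :
    (N : ℝ) ^ k ≤ 2 ^ ((i + 1) * k) * ((P : ℝ) ^ i) ^ k * (K : ℝ) ^ k := by
  have h1 : N ^ k ≤ (2 * (2 * P) ^ i * K) ^ k := Nat.pow_le_pow_left h.n1' k
  have h2 : (2 * (2 * P) ^ i * K) ^ k = 2 ^ ((i + 1) * k) * (P ^ i) ^ k * K ^ k := by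
    rw [pow_mul, ← mul_pow, ← mul_pow]
    congr 1
    rw [mul_pow]
    ring
  rw [h2] at h1
  exact_mod_cast h1

/-- the small tolerance times `N ^ k` -/
theorem NC.dsN {k N K P i W : ℕ} (h : NC k N K P i W) :
    del k N K / ((P : ℝ) ^ i) ^ (k - 1) * (N : ℝ) ^ k ≤
      (2 * (k : ℝ) + 2) * (N : ℝ) * 2 ^ ((i + 1) * k) * (P : ℝ) ^ i := by
  have hP0 : (0 : ℝ) < (P : ℝ) := by exact_mod_cast h.hP
  have hK0 : (0 : ℝ) < (K : ℝ) := by exact_mod_cast h.hK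
  have hk : ((P : ℝ) ^ i) ^ k = ((P : ℝ) ^ i) ^ (k - 1) * (P : ℝ) ^ i := by
    rw [← pow_succ]
    congr 1
    have := h.hk
    omega
  have h5 := h.n5
  rw [hk] at h5
  unfold del
  rw [div_div, div_mul_eq_mul_div, div_le_iff₀ (by positivity)]
  calc (2 * (k : ℝ) + 2) * (N : ℝ) * (N : ℝ) ^ k
      ≤ (2 * (k : ℝ) + 2) * (N : ℝ) *
        (2 ^ ((i + 1) * k) * (((P : ℝ) ^ i) ^ (k - 1) * (P : ℝ) ^ i) * (K : ℝ) ^ k) :=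
        mul_le_mul_of_nonneg_left h5 (by positivity)
    _ = (2 * (k : ℝ) + 2) * (N : ℝ) * 2 ^ ((i + 1) * k) * (P : ℝ) ^ i *
        ((K : ℝ) ^ k * ((P : ℝ) ^ i) ^ (k - 1)) := by ring

theorem NC.ds_le {k N K P i W : ℕ} (h : NC k N K P i W) :
    del k N K / ((P : ℝ) ^ i) ^ (k - 1) ≤ del k N K := by
  apply div_le_self (del_nonneg k N K)
  apply one_le_pow₀
  apply one_le_pow₀
  exact_mod_cast h.hP

/-- one pair `(d, d₁)`, special case -/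
theorem pair_spc {k N K P i W : ℕ} {t : ℝ} (h : NC k N K P i W) (hF : Far k N t) (s₁ : ℝ)
    (ws d d₁ : ℕ) (b : ℤ) (hws1 : 1 ≤ ws) (hwsW : ws ≤ W)
    (hS : ∀ (X : ℤ) (δ₂ : ℝ), Nr ((k : ℝ) * t * (X : ℝ)) δ₂ →
      (ws : ℝ) * δ₂ + del k N K / ((P : ℝ) ^ i) ^ (k - 1) * |(X : ℝ)| < 1 →
      (ws : ℤ) ∣ X ∧ |(k : ℝ) * t - (b : ℝ) / (ws : ℝ)| * |(X : ℝ)| ≤ δ₂)
    (hd : Dil (k - 1) W i P ws ((k : ℝ) * t) (del k N K) d)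
    (hd₁ : Dil (k - 1) W i P ws ((k : ℝ) * t) (del k N K) d₁) (R : Finset (ℤ × ℤ))
    (hR : ∀ p ∈ R, |p.1| ≤ (N : ℤ) ∧ |p.2| ≤ (N : ℤ) ∧ Close2 k K t s₁ ((d, p.1), (d₁, p.2))) :
    (R.card : ℝ) ≤ 24 * (k : ℝ) * (1 + ((k : ℝ) + 1) * 2 ^ ((i + 1) * k)) * 2 ^ i * (N : ℝ) +
      (2 * (N : ℝ) * (Nat.gcd d d₁ : ℝ) / ((P ^ i : ℕ) : ℝ) + 1) := by
  have hD : 1 ≤ P ^ i := Nat.one_le_pow _ _ h.hP
  have hd1 : 1 ≤ d := by have := hd.1; omega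
  have hγ : 1 ≤ Nat.gcd d d₁ := Nat.gcd_pos_of_pos_left _ hd1
  have hγ0 : (0 : ℝ) < (Nat.gcd d d₁ : ℝ) := by exact_mod_cast hγ
  have hP0 : (0 : ℝ) < (P : ℝ) := by exact_mod_cast h.hP
  have hN0 : (0 : ℝ) < (N : ℝ) := by exact_mod_cast h.hN
  have hK0 : (0 : ℝ) < (K : ℝ) := by exact_mod_cast h.hK
  have hk0 : (0 : ℝ) < (k : ℝ) := by
    have := h.hk
    exact_mod_cast (by omega : 0 < k)
  have hws0 : (0 : ℝ) < (ws : ℝ) := by exact_mod_cast hws1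
  have hW : (W : ℝ) = 4 * (2 * (P : ℝ)) ^ i * (N : ℝ) := by
    rw [h.hW]
    push_cast
    ring
  have hW0 : (0 : ℝ) ≤ (W : ℝ) := by positivity
  have hlow := far_low t b k N ws (by have := h.hk; omega) hws1 hF
  have hdW := h.delW
  have hds := h.ds_le
  have hdn := del_nonneg k N K
  have hdsn : 0 ≤ del k N K / ((P : ℝ) ^ i) ^ (k - 1) := div_nonneg hdn (by positivity)
  -- the differences
  have hw : ∀ p ∈ R, ∀ p' ∈ R,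
      (ws : ℤ) ∣ (((d₁ : ℤ) * p.1 - (d : ℤ) * p.2) - ((d₁ : ℤ) * p'.1 - (d : ℤ) * p'.2)) ∧
      |(((((d₁ : ℤ) * p.1 - (d : ℤ) * p.2) - ((d₁ : ℤ) * p'.1 - (d : ℤ) * p'.2) : ℤ)) : ℝ)| *
        (1 + (N : ℝ) ^ k * |(k : ℝ) * t - (b : ℝ) / (ws : ℝ)|) ≤
        (1 + ((k : ℝ) + 1) * 2 ^ ((i + 1) * k)) * (W : ℝ) := by
    intro p hp p' hp'
    obtain ⟨a1, a2, a3⟩ := hR p hp
    obtain ⟨b1, b2, b3⟩ := hR p' hp'
    have h1 := w_nr h s₁ d d₁ hd hd₁ p.1 p.2 p'.1 p'.2 a1 a2 b1 b2 a3 b3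
    have h2 := w_le h d d₁ hd.2.1 hd₁.2.1 p.1 p.2 p'.1 p'.2 a1 a2 b1 b2
    generalize ((d₁ : ℤ) * p.1 - (d : ℤ) * p.2) - ((d₁ : ℤ) * p'.1 - (d : ℤ) * p'.2) = w at h1 h2
    have h2r : |(w : ℝ)| ≤ (W : ℝ) := by exact_mod_cast h2
    have hwsr : (ws : ℝ) ≤ (W : ℝ) := by exact_mod_cast hwsW
    have h3 : (ws : ℝ) * (del k N K / ((P : ℝ) ^ i) ^ (k - 1)) +
        del k N K / ((P : ℝ) ^ i) ^ (k - 1) * |(w : ℝ)| < 1 := by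
      have e1 : (ws : ℝ) * (del k N K / ((P : ℝ) ^ i) ^ (k - 1)) ≤ (W : ℝ) * del k N K :=
        mul_le_mul hwsr hds hdsn hW0
      have e2 : del k N K / ((P : ℝ) ^ i) ^ (k - 1) * |(w : ℝ)| ≤ del k N K * (W : ℝ) :=
        mul_le_mul hds h2r (abs_nonneg _) hdn
      have e3 : 0 ≤ del k N K * (W : ℝ) := mul_nonneg hdn hW0
      nlinarith
    obtain ⟨h4, h5⟩ := hS w _ h1 h3
    refine ⟨h4, ?_⟩
    have h6 : (N : ℝ) ^ k * |(k : ℝ) * t - (b : ℝ) / (ws : ℝ)| * |(w : ℝ)| ≤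
        (2 * (k : ℝ) + 2) * (N : ℝ) * 2 ^ ((i + 1) * k) * (P : ℝ) ^ i := by
      calc (N : ℝ) ^ k * |(k : ℝ) * t - (b : ℝ) / (ws : ℝ)| * |(w : ℝ)|
          = (N : ℝ) ^ k * (|(k : ℝ) * t - (b : ℝ) / (ws : ℝ)| * |(w : ℝ)|) := by ring
        _ ≤ (N : ℝ) ^ k * (del k N K / ((P : ℝ) ^ i) ^ (k - 1)) :=
            mul_le_mul_of_nonneg_left h5 (by positivity)
        _ = del k N K / ((P : ℝ) ^ i) ^ (k - 1) * (N : ℝ) ^ k := by ring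
        _ ≤ _ := h.dsN
    have h7 : (2 * (k : ℝ) + 2) * (N : ℝ) * 2 ^ ((i + 1) * k) * (P : ℝ) ^ i ≤
        ((k : ℝ) + 1) * 2 ^ ((i + 1) * k) * (W : ℝ) := by
      have e1 : (P : ℝ) ^ i ≤ (2 * (P : ℝ)) ^ i := pow_le_pow_left₀ hP0.le (by linarith) i
      rw [hW]
      calc (2 * (k : ℝ) + 2) * (N : ℝ) * 2 ^ ((i + 1) * k) * (P : ℝ) ^ i
          = ((k : ℝ) + 1) * 2 ^ ((i + 1) * k) * (2 * (P : ℝ) ^ i * (N : ℝ)) := by ring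
        _ ≤ ((k : ℝ) + 1) * 2 ^ ((i + 1) * k) * (4 * (2 * (P : ℝ)) ^ i * (N : ℝ)) := by
            apply mul_le_mul_of_nonneg_left _ (by positivity)
            apply mul_le_mul_of_nonneg_right _ hN0.le
            have : 0 < (P : ℝ) ^ i := by positivity
            linarith
    calc |(w : ℝ)| * (1 + (N : ℝ) ^ k * |(k : ℝ) * t - (b : ℝ) / (ws : ℝ)|)
        = |(w : ℝ)| + (N : ℝ) ^ k * |(k : ℝ) * t - (b : ℝ) / (ws : ℝ)| * |(w : ℝ)| := by ring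
      _ ≤ (W : ℝ) + ((k : ℝ) + 1) * 2 ^ ((i + 1) * k) * (W : ℝ) :=
          add_le_add h2r (h6.trans h7)
      _ = _ := by ring
  -- the counting
  have hG0 : 0 < 1 + (N : ℝ) ^ k * |(k : ℝ) * t - (b : ℝ) / (ws : ℝ)| := by positivity
  generalize (1 + (N : ℝ) ^ k * |(k : ℝ) * t - (b : ℝ) / (ws : ℝ)|) = Gg at hlow hw hG0
  have hcop : Nat.Coprime ws (Nat.gcd d d₁) := by
    have h1 : Nat.Coprime d₁ ws := hd₁.2.2.1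
    exact (Nat.Coprime.coprime_dvd_left (Nat.gcd_dvd_right d d₁) h1).symm
  have h5 := cnt_strR d d₁ N (P ^ i) (ws * Nat.gcd d d₁)
    ((1 + ((k : ℝ) + 1) * 2 ^ ((i + 1) * k)) * (W : ℝ) / Gg) R hd1 hD hd.1
    (Nat.mul_pos hws1 hγ) (by positivity) (fun p hp => (hR p hp).1)
    (fun p hp p' hp' => by
      rw [le_div_iff₀ hG0]
      refine le_trans ?_ (hw p hp p' hp').2
      exact mul_le_mul_of_nonneg_right (le_abs_self _) hG0.le)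
    (fun p hp p' hp' => by
      have h1 := (hw p hp p' hp').1
      have h2 : ((Nat.gcd d d₁ : ℕ) : ℤ) ∣
          (((d₁ : ℤ) * p.1 - (d : ℤ) * p.2) - ((d₁ : ℤ) * p'.1 - (d : ℤ) * p'.2)) := by
        have g1 : ((Nat.gcd d d₁ : ℕ) : ℤ) ∣ (d : ℤ) := by exact_mod_cast Nat.gcd_dvd_left d d₁
        have g2 : ((Nat.gcd d d₁ : ℕ) : ℤ) ∣ (d₁ : ℤ) := by exact_mod_cast Nat.gcd_dvd_right d d₁
        exact dvd_sub (dvd_sub (Dvd.dvd.mul_right g2 _) (Dvd.dvd.mul_right g1 _))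
          (dvd_sub (Dvd.dvd.mul_right g2 _) (Dvd.dvd.mul_right g1 _))
      have hc : IsCoprime (ws : ℤ) ((Nat.gcd d d₁ : ℕ) : ℤ) := Nat.isCoprime_iff_coprime.mpr hcop
      push_cast
      exact hc.mul_dvd h1 h2)
  refine h5.trans ?_
  -- the length
  have h6 : (1 + ((k : ℝ) + 1) * 2 ^ ((i + 1) * k)) * (W : ℝ) / Gg /
      ((ws * Nat.gcd d d₁ : ℕ) : ℝ) ≤
      8 * (k : ℝ) * (1 + ((k : ℝ) + 1) * 2 ^ ((i + 1) * k)) * (2 * (P : ℝ)) ^ i /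
        (Nat.gcd d d₁ : ℝ) := by
    rw [div_div, div_le_div_iff₀ (by positivity) hγ0]
    push_cast
    have e1 : (W : ℝ) ≤ 8 * (k : ℝ) * (2 * (P : ℝ)) ^ i * (Gg * (ws : ℝ)) := by
      rw [hW]
      have e2 : (N : ℝ) ≤ 2 * ((k : ℝ) * (ws : ℝ) * Gg) := by linarith
      calc 4 * (2 * (P : ℝ)) ^ i * (N : ℝ) ≤ 4 * (2 * (P : ℝ)) ^ i * (2 * ((k : ℝ) * (ws : ℝ) * Gg)) :=
            mul_le_mul_of_nonneg_left e2 (by positivity)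
        _ = 8 * (k : ℝ) * (2 * (P : ℝ)) ^ i * (Gg * (ws : ℝ)) := by ring
    calc (1 + ((k : ℝ) + 1) * 2 ^ ((i + 1) * k)) * (W : ℝ) * (Nat.gcd d d₁ : ℝ)
        ≤ (1 + ((k : ℝ) + 1) * 2 ^ ((i + 1) * k)) *
          (8 * (k : ℝ) * (2 * (P : ℝ)) ^ i * (Gg * (ws : ℝ))) * (Nat.gcd d d₁ : ℝ) := by
          apply mul_le_mul_of_nonneg_right _ hγ0.le
          exact mul_le_mul_of_nonneg_left e1 (by positivity)
      _ = 8 * (k : ℝ) * (1 + ((k : ℝ) + 1) * 2 ^ ((i + 1) * k)) * (2 * (P : ℝ)) ^ i *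
          (Gg * ((ws : ℝ) * (Nat.gcd d d₁ : ℝ))) := by ring
  have hγ1 : (1 : ℝ) ≤ (Nat.gcd d d₁ : ℝ) := by exact_mod_cast hγ
  have hDN : (2 * (P : ℝ)) ^ i ≤ (N : ℝ) := by
    have h7 : (2 * P) ^ i ≤ N := by
      have := h.n1
      have := h.hK
      nlinarith
    exact_mod_cast h7
  have h2i : (1 : ℝ) ≤ 2 ^ i := one_le_pow₀ (by norm_num)
  have hPi : (0 : ℝ) < (P : ℝ) ^ i := by positivity
  have ePi : ((P ^ i : ℕ) : ℝ) = (P : ℝ) ^ i := by push_cast; rfl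
  rw [ePi]
  generalize hc4 : (1 + ((k : ℝ) + 1) * 2 ^ ((i + 1) * k)) = c₄ at h6
  have hc40 : 0 < c₄ := by rw [← hc4]; positivity
  generalize (Nat.gcd d d₁ : ℝ) = γ at h6 hγ0 hγ1
  have h8 : (2 * (N : ℝ) * γ / (P : ℝ) ^ i + 1) *
      (c₄ * (W : ℝ) / Gg / ((ws * Nat.gcd d d₁ : ℕ) : ℝ) + 1) ≤
      (2 * (N : ℝ) * γ / (P : ℝ) ^ i + 1) * (8 * (k : ℝ) * c₄ * (2 * (P : ℝ)) ^ i / γ + 1) := by
    apply mul_le_mul_of_nonneg_left _ (by positivity)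
    linarith
  refine h8.trans ?_
  have h9 : (2 * (N : ℝ) * γ / (P : ℝ) ^ i) * (8 * (k : ℝ) * c₄ * (2 * (P : ℝ)) ^ i / γ) =
      16 * (k : ℝ) * c₄ * 2 ^ i * (N : ℝ) := by
    rw [mul_pow]
    field_simp
    ring
  have h10 : 8 * (k : ℝ) * c₄ * (2 * (P : ℝ)) ^ i / γ ≤ 8 * (k : ℝ) * c₄ * 2 ^ i * (N : ℝ) := by
    refine (div_le_self (by positivity) hγ1).trans ?_
    calc 8 * (k : ℝ) * c₄ * (2 * (P : ℝ)) ^ i ≤ 8 * (k : ℝ) * c₄ * (N : ℝ) :=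
          mul_le_mul_of_nonneg_left hDN (by positivity)
      _ = 8 * (k : ℝ) * c₄ * 1 * (N : ℝ) := by ring
      _ ≤ 8 * (k : ℝ) * c₄ * 2 ^ i * (N : ℝ) := by
          apply mul_le_mul_of_nonneg_right _ hN0.le
          exact mul_le_mul_of_nonneg_left h2i (by positivity)
  calc (2 * (N : ℝ) * γ / (P : ℝ) ^ i + 1) * (8 * (k : ℝ) * c₄ * (2 * (P : ℝ)) ^ i / γ + 1)
      = (2 * (N : ℝ) * γ / (P : ℝ) ^ i) * (8 * (k : ℝ) * c₄ * (2 * (P : ℝ)) ^ i / γ) +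
        8 * (k : ℝ) * c₄ * (2 * (P : ℝ)) ^ i / γ + (2 * (N : ℝ) * γ / (P : ℝ) ^ i + 1) := by ring
    _ ≤ 16 * (k : ℝ) * c₄ * 2 ^ i * (N : ℝ) + 8 * (k : ℝ) * c₄ * 2 ^ i * (N : ℝ) +
        (2 * (N : ℝ) * γ / (P : ℝ) ^ i + 1) := by
        rw [h9]
        linarith
    _ = _ := by ring

end Pool.Agent.VM.H7
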