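import Mathlib
import Pool.Agent.Helper7_VM.EneS

/-!
# The parameters for the energy bound: statement
-/

set_option autoImplicit false

namespace Pool.Agent.VM.H7

open Pool.Agent.VM

/-- NUMF: the choice of the parameters, `θ = (k - 2) / (k + 1)` -/
def NumFStmt (k : ℕ) (θ : ℝ) : Prop :=
  ∀ ε : ℝ, 0 < ε → ∃ (i B N₀ : ℕ), ∀ N : ℕ, N₀ ≤ N → ∃ P K : ℕ, 2 ≤ P ∧
    NC k N K P i (4 * (2 * P) ^ i * N) ∧
    2 * (2 * P) ^ (k - 1) * (4 * (2 * P) ^ i * N) < P ^ B ∧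
    4 * (2 * P) ^ i * N + 1 < P ^ B ∧ (2 * P) ^ i < P ^ B ∧
    (N : ℝ) ^ (θ - ε) * (B : ℝ) ^ i ≤ ((((prs P).card - 2 * B) ^ i : ℕ) : ℝ)

end Pool.Agent.VM.H7
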