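import Mathlib
import Pool.Agent.Helper7_VM.EneS

/-!
# The energy bound: in the special case every dilation has few partners
-/

set_option autoImplicit false

namespace Pool.Agent.VM.H7

open Pool.Agent.VM

theorem pow_diff (k : ℕ) (hk : 1 ≤ k) (D x y : ℝ) (hD : 0 ≤ D) (hx : D ≤ x) (hy : D ≤ y) :
    |x - y| * D ^ (k - 1) ≤ |x ^ k - y ^ k| := by
  have hx0 : 0 ≤ x := hD.trans hx
  have hy0 : 0 ≤ y := hD.trans hy
  have hkp : ∀ z : ℝ, z ^ k = z ^ (k - 1) * z := by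
    intro z
    rw [← pow_succ]
    congr 1
    omega
  rcases le_total y x with h | h
  · have h1 : y ^ (k - 1) ≤ x ^ (k - 1) := pow_le_pow_left₀ hy0 h _
    have h2 : y ^ k ≤ x ^ k := pow_le_pow_left₀ hy0 h _
    have h3 : D ^ (k - 1) ≤ x ^ (k - 1) := pow_le_pow_left₀ hD hx _
    rw [abs_of_nonneg (by linarith), abs_of_nonneg (by linarith), hkp x, hkp y]
    nlinarith
  · have h1 : x ^ (k - 1) ≤ y ^ (k - 1) := pow_le_pow_left₀ hx0 h _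
    have h2 : x ^ k ≤ y ^ k := pow_le_pow_left₀ hx0 h _
    have h3 : D ^ (k - 1) ≤ y ^ (k - 1) := pow_le_pow_left₀ hD hy _
    rw [abs_of_nonpos (by linarith), abs_of_nonpos (by linarith), hkp x, hkp y]
    nlinarith

theorem roots_spc {k N K P i W : ℕ} {t : ℝ} (h : NC k N K P i W) (hF : Far k N t)
    (ws d₁ : ℕ) (b : ℤ) (hws1 : 1 ≤ ws) (hwsW : ws ≤ W)
    (hS : ∀ (X : ℤ) (δ₂ : ℝ), Nr ((k : ℝ) * t * (X : ℝ)) δ₂ →
      (ws : ℝ) * δ₂ + del k N K / ((P : ℝ) ^ i) ^ (k - 1) * |(X : ℝ)| < 1 →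
      (ws : ℤ) ∣ X ∧ |(k : ℝ) * t - (b : ℝ) / (ws : ℝ)| * |(X : ℝ)| ≤ δ₂)
    (T : Finset ℕ) (hT : ∀ d ∈ T, Dil (k - 1) W i P ws ((k : ℝ) * t) (del k N K) d)
    (hd₁ : Dil (k - 1) W i P ws ((k : ℝ) * t) (del k N K) d₁)
    (hC : ∀ d ∈ T, Nr (t * (d : ℝ) ^ k - t * (d₁ : ℝ) ^ k) (1 / (K : ℝ) ^ k)) :
    T.card ≤ ((Finset.range ws).filter (fun x => Nat.Coprime x ws ∧ x ^ k ≡ 1 [MOD ws])).card := by
  have hP0 : (0 : ℝ) < (P : ℝ) := by exact_mod_cast h.hP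
  have hN0 : (0 : ℝ) < (N : ℝ) := by exact_mod_cast h.hN
  have hN1 : (1 : ℝ) ≤ (N : ℝ) := by exact_mod_cast h.hN
  have hK0 : (0 : ℝ) < (K : ℝ) := by exact_mod_cast h.hK
  have hk1 : 1 ≤ k := by have := h.hk; omega
  have hk0 : (0 : ℝ) < (k : ℝ) := by exact_mod_cast hk1
  have hws0 : (0 : ℝ) < (ws : ℝ) := by exact_mod_cast hws1
  have hPi : (0 : ℝ) < (P : ℝ) ^ i := by positivity
  have hW : (W : ℝ) = 4 * (2 * (P : ℝ)) ^ i * (N : ℝ) := by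
    rw [h.hW]
    push_cast
    ring
  have hW0 : (0 : ℝ) ≤ (W : ℝ) := by positivity
  have hlow := far_low t b k N ws hk1 hws1 hF
  have hdW := h.delW
  have hdn := del_nonneg k N K
  have hDil : ∀ d, Dil (k - 1) W i P ws ((k : ℝ) * t) (del k N K) d →
      (P : ℝ) ^ i ≤ (d : ℝ) ∧ (d : ℝ) ≤ (2 * (P : ℝ)) ^ i := by
    intro d hd
    exact ⟨by exact_mod_cast hd.1, by exact_mod_cast hd.2.1⟩
  obtain ⟨hd₁a, hd₁b⟩ := hDil d₁ hd₁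
  have hmain : ∀ d ∈ T, (ws : ℤ) ∣ (d : ℤ) ^ k - (d₁ : ℤ) ^ k ∧
      2 * |(d : ℝ) - (d₁ : ℝ)| < (ws : ℝ) := by
    intro d hd
    obtain ⟨hda, hdb⟩ := hDil d (hT d hd)
    -- the point `X`
    have h1 : Nr ((k : ℝ) * t * ((((d : ℤ) ^ k - (d₁ : ℤ) ^ k : ℤ)) : ℝ)) ((k : ℝ) / (K : ℝ) ^ k) := by
      obtain ⟨z, hz⟩ := hC d hd
      refine ⟨(k : ℤ) * z, ?_⟩
      have e : (k : ℝ) * t * ((((d : ℤ) ^ k - (d₁ : ℤ) ^ k : ℤ)) : ℝ) - (((k : ℤ) * z : ℤ) : ℝ) =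
          (k : ℝ) * ((t * (d : ℝ) ^ k - t * (d₁ : ℝ) ^ k) - (z : ℝ)) := by
        push_cast
        ring
      rw [e, abs_mul, abs_of_pos hk0]
      calc (k : ℝ) * |(t * (d : ℝ) ^ k - t * (d₁ : ℝ) ^ k) - (z : ℝ)|
          ≤ (k : ℝ) * (1 / (K : ℝ) ^ k) := mul_le_mul_of_nonneg_left hz hk0.le
        _ = (k : ℝ) / (K : ℝ) ^ k := by ring
    have h2 : (k : ℝ) / (K : ℝ) ^ k ≤ del k N K := by
      unfold del
      apply div_le_div_of_nonneg_right _ (by positivity)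
      nlinarith
    have hXle : |((((d : ℤ) ^ k - (d₁ : ℤ) ^ k : ℤ)) : ℝ)| ≤ ((2 * (P : ℝ)) ^ i) ^ k := by
      push_cast
      have e1 : (d : ℝ) ^ k ≤ ((2 * (P : ℝ)) ^ i) ^ k := pow_le_pow_left₀ (by positivity) hdb _
      have e2 : (d₁ : ℝ) ^ k ≤ ((2 * (P : ℝ)) ^ i) ^ k := pow_le_pow_left₀ (by positivity) hd₁b _
      have e3 : (0 : ℝ) ≤ (d : ℝ) ^ k := by positivity
      have e4 : (0 : ℝ) ≤ (d₁ : ℝ) ^ k := by positivity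
      rw [abs_le]
      constructor <;> linarith
    have hXge := pow_diff k hk1 ((P : ℝ) ^ i) (d : ℝ) (d₁ : ℝ) hPi.le hda hd₁a
    have h3 : del k N K / ((P : ℝ) ^ i) ^ (k - 1) * ((2 * (P : ℝ)) ^ i) ^ k ≤
        del k N K * (W : ℝ) := by
      have e1 : ((2 * (P : ℝ)) ^ i) ^ k = 2 ^ (i * (k - 1)) * ((P : ℝ) ^ i) ^ (k - 1) * (2 * (P : ℝ)) ^ i := by
        have e2 : ((2 * (P : ℝ)) ^ i) ^ k = ((2 * (P : ℝ)) ^ i) ^ (k - 1) * (2 * (P : ℝ)) ^ i := by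
          rw [← pow_succ]
          congr 1
          omega
        rw [e2]
        congr 1
        rw [pow_mul, ← mul_pow, ← mul_pow]
      have e3 : (2 : ℝ) ^ (i * (k - 1)) ≤ (N : ℝ) := by exact_mod_cast h.n3
      rw [e1]
      have e4 : del k N K / ((P : ℝ) ^ i) ^ (k - 1) *
          (2 ^ (i * (k - 1)) * ((P : ℝ) ^ i) ^ (k - 1) * (2 * (P : ℝ)) ^ i) =
          del k N K * (2 ^ (i * (k - 1)) * (2 * (P : ℝ)) ^ i) := by
        field_simp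
      rw [e4]
      apply mul_le_mul_of_nonneg_left _ hdn
      rw [hW]
      have e5 : (0 : ℝ) < (2 * (P : ℝ)) ^ i := by positivity
      nlinarith
    have hwsr : (ws : ℝ) ≤ (W : ℝ) := by exact_mod_cast hwsW
    have h4 : (ws : ℝ) * ((k : ℝ) / (K : ℝ) ^ k) + del k N K / ((P : ℝ) ^ i) ^ (k - 1) *
        |((((d : ℤ) ^ k - (d₁ : ℤ) ^ k : ℤ)) : ℝ)| < 1 := by
      have e1 : (ws : ℝ) * ((k : ℝ) / (K : ℝ) ^ k) ≤ (W : ℝ) * del k N K :=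
        mul_le_mul hwsr h2 (by positivity) hW0
      have e2 : del k N K / ((P : ℝ) ^ i) ^ (k - 1) *
          |((((d : ℤ) ^ k - (d₁ : ℤ) ^ k : ℤ)) : ℝ)| ≤ del k N K * (W : ℝ) :=
        (mul_le_mul_of_nonneg_left hXle (div_nonneg hdn (by positivity))).trans h3
      have e3 : 0 ≤ del k N K * (W : ℝ) := mul_nonneg hdn hW0
      nlinarith
    obtain ⟨h5, h6⟩ := hS _ _ h1 h4
    refine ⟨h5, ?_⟩
    -- the distance
    have h7 : |(k : ℝ) * t - (b : ℝ) / (ws : ℝ)| * (|(d : ℝ) - (d₁ : ℝ)| * ((P : ℝ) ^ i) ^ (k - 1)) ≤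
        (k : ℝ) / (K : ℝ) ^ k := by
      refine le_trans (mul_le_mul_of_nonneg_left ?_ (abs_nonneg _)) h6
      push_cast
      exact hXge
    have h8 : (N : ℝ) ^ k * |(k : ℝ) * t - (b : ℝ) / (ws : ℝ)| * |(d : ℝ) - (d₁ : ℝ)| ≤
        (k : ℝ) * 2 ^ ((i + 1) * k) * (P : ℝ) ^ i := by
      have e0 : ((P : ℝ) ^ i) ^ k = ((P : ℝ) ^ i) ^ (k - 1) * (P : ℝ) ^ i := by
        rw [← pow_succ]
        congr 1
        omega
      have h9 := h.n5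
      rw [e0] at h9
      have hQ : (0 : ℝ) < ((P : ℝ) ^ i) ^ (k - 1) := by positivity
      have hKk : (0 : ℝ) < (K : ℝ) ^ k := by positivity
      rw [le_div_iff₀ hKk] at h7
      have hβ : 0 ≤ |(k : ℝ) * t - (b : ℝ) / (ws : ℝ)| * |(d : ℝ) - (d₁ : ℝ)| :=
        mul_nonneg (abs_nonneg _) (abs_nonneg _)
      calc (N : ℝ) ^ k * |(k : ℝ) * t - (b : ℝ) / (ws : ℝ)| * |(d : ℝ) - (d₁ : ℝ)|
          = (N : ℝ) ^ k * (|(k : ℝ) * t - (b : ℝ) / (ws : ℝ)| * |(d : ℝ) - (d₁ : ℝ)|) := by ring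
        _ ≤ (2 ^ ((i + 1) * k) * (((P : ℝ) ^ i) ^ (k - 1) * (P : ℝ) ^ i) * (K : ℝ) ^ k) *
            (|(k : ℝ) * t - (b : ℝ) / (ws : ℝ)| * |(d : ℝ) - (d₁ : ℝ)|) :=
            mul_le_mul_of_nonneg_right h9 hβ
        _ = 2 ^ ((i + 1) * k) * (P : ℝ) ^ i * (|(k : ℝ) * t - (b : ℝ) / (ws : ℝ)| *
            (|(d : ℝ) - (d₁ : ℝ)| * ((P : ℝ) ^ i) ^ (k - 1)) * (K : ℝ) ^ k) := by ring
        _ ≤ 2 ^ ((i + 1) * k) * (P : ℝ) ^ i * (k : ℝ) :=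
            mul_le_mul_of_nonneg_left h7 (by positivity)
        _ = (k : ℝ) * 2 ^ ((i + 1) * k) * (P : ℝ) ^ i := by ring
    have h10 : |(d : ℝ) - (d₁ : ℝ)| ≤ (2 * (P : ℝ)) ^ i := by
      rw [abs_le]
      have e1 : (0 : ℝ) ≤ (d : ℝ) := by positivity
      have e2 : (0 : ℝ) ≤ (d₁ : ℝ) := by positivity
      constructor <;> linarith
    have h11 : |(d : ℝ) - (d₁ : ℝ)| *
        (1 + (N : ℝ) ^ k * |(k : ℝ) * t - (b : ℝ) / (ws : ℝ)|) ≤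
        (1 + (k : ℝ) * 2 ^ ((i + 1) * k)) * (2 * (P : ℝ)) ^ i := by
      have e1 : (P : ℝ) ^ i ≤ (2 * (P : ℝ)) ^ i := pow_le_pow_left₀ hP0.le (by linarith) i
      have e2 : (k : ℝ) * 2 ^ ((i + 1) * k) * (P : ℝ) ^ i ≤
          (k : ℝ) * 2 ^ ((i + 1) * k) * (2 * (P : ℝ)) ^ i :=
        mul_le_mul_of_nonneg_left e1 (by positivity)
      nlinarith
    have hG0 : 0 < 1 + (N : ℝ) ^ k * |(k : ℝ) * t - (b : ℝ) / (ws : ℝ)| := by positivity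
    generalize (1 + (N : ℝ) ^ k * |(k : ℝ) * t - (b : ℝ) / (ws : ℝ)|) = Gg at hlow h11 hG0
    have hn4 : 4 * (k : ℝ) * (1 + (k : ℝ) * 2 ^ ((i + 1) * k)) < (K : ℝ) := by
      exact_mod_cast h.n4
    have hn1 : (2 * (P : ℝ)) ^ i * (K : ℝ) ≤ (N : ℝ) := by exact_mod_cast h.n1
    have hDp : (0 : ℝ) < (2 * (P : ℝ)) ^ i := by positivity
    have h12 : 2 * |(d : ℝ) - (d₁ : ℝ)| * (N : ℝ) < (ws : ℝ) * (N : ℝ) := by
      have e0 : 0 ≤ |(d : ℝ) - (d₁ : ℝ)| := abs_nonneg _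
      calc 2 * |(d : ℝ) - (d₁ : ℝ)| * (N : ℝ)
          ≤ 2 * |(d : ℝ) - (d₁ : ℝ)| * (2 * ((k : ℝ) * (ws : ℝ) * Gg)) := by
            apply mul_le_mul_of_nonneg_left _ (by positivity)
            linarith
        _ = 4 * (k : ℝ) * (ws : ℝ) * (|(d : ℝ) - (d₁ : ℝ)| * Gg) := by ring
        _ ≤ 4 * (k : ℝ) * (ws : ℝ) * ((1 + (k : ℝ) * 2 ^ ((i + 1) * k)) * (2 * (P : ℝ)) ^ i) :=
            mul_le_mul_of_nonneg_left h11 (by positivity)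
        _ = (ws : ℝ) * (2 * (P : ℝ)) ^ i * (4 * (k : ℝ) * (1 + (k : ℝ) * 2 ^ ((i + 1) * k))) := by
            ring
        _ < (ws : ℝ) * (2 * (P : ℝ)) ^ i * (K : ℝ) :=
            mul_lt_mul_of_pos_left hn4 (by positivity)
        _ = (ws : ℝ) * ((2 * (P : ℝ)) ^ i * (K : ℝ)) := by ring
        _ ≤ (ws : ℝ) * (N : ℝ) := mul_le_mul_of_nonneg_left hn1 hws0.le
    exact lt_of_mul_lt_mul_right h12 hN0.le
  apply cnt_root k ws d₁ T hws1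
  · intro d hd d' hd'
    have h1 := (hmain d hd).2
    have h2 := (hmain d' hd').2
    have h3 : (d : ℝ) - (d' : ℝ) < (ws : ℝ) := by
      have e : (d : ℝ) - (d' : ℝ) = ((d : ℝ) - (d₁ : ℝ)) - ((d' : ℝ) - (d₁ : ℝ)) := by ring
      have e1 := le_abs_self ((d : ℝ) - (d₁ : ℝ))
      have e2 := neg_abs_le ((d' : ℝ) - (d₁ : ℝ))
      linarith
    exact_mod_cast h3
  · intro d hd
    exact (hT d hd).2.2.1
  · exact hd₁.2.2.1
  · intro d hd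
    exact (hmain d hd).1

end Pool.Agent.VM.H7
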