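import Mathlib
import Pool.Agent.Helper7_VM.Roots

/-!
# The energy bound: the sum over all pairs of dilations
-/

set_option autoImplicit false

namespace Pool.Agent.VM.H7

open Pool.Agent.VM

open Classical in
/-- the pairs of points for a pair of dilations -/
noncomputable def Rp (k N K : ℕ) (t s₁ : ℝ) (d d₁ : ℕ) : Finset (ℤ × ℤ) :=
  ((Finset.Icc (-(N : ℤ)) (N : ℤ)) ×ˢ (Finset.Icc (-(N : ℤ)) (N : ℤ))).filter
    (fun p => Close2 k K t s₁ ((d, p.1), (d₁, p.2)))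

theorem mem_Rp {k N K : ℕ} {t s₁ : ℝ} {d d₁ : ℕ} {p : ℤ × ℤ} :
    p ∈ Rp k N K t s₁ d d₁ ↔ |p.1| ≤ (N : ℤ) ∧ |p.2| ≤ (N : ℤ) ∧
      Close2 k K t s₁ ((d, p.1), (d₁, p.2)) := by
  classical
  unfold Rp
  rw [Finset.mem_filter, Finset.mem_product, Finset.mem_Icc, Finset.mem_Icc, abs_le, abs_le]
  tauto

/-- the constant of the special case -/
noncomputable def cS (k i : ℕ) : ℝ :=
  24 * (k : ℝ) * (1 + ((k : ℝ) + 1) * 2 ^ ((i + 1) * k)) * 2 ^ i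

theorem inner {k N K P i W : ℕ} {t : ℝ} (h : NC k N K P i W) (hF : Far k N t) (s₁ : ℝ)
    (u₁ : ℕ) (hSel : Sel k N K P i W t u₁) (S : Finset ℕ)
    (hS : ∀ d ∈ S, Dil (k - 1) W i P u₁ ((k : ℝ) * t) (del k N K) d)
    (RU : ℝ) (hRU : ∀ m : ℕ, 1 ≤ m → m ≤ W →
      ((((Finset.range m).filter (fun x => Nat.Coprime x m ∧ x ^ k ≡ 1 [MOD m])).card : ℕ) : ℝ) ≤ RU)
    (hRU0 : 0 ≤ RU) (d₁ : ℕ) (hd₁ : d₁ ∈ S) :
    ∃ T : Finset ℕ, T ⊆ S ∧ (T.card : ℝ) ≤ RU ∧ ∀ d ∈ S,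
      ((Rp k N K t s₁ d d₁).card : ℝ) ≤ (if d ∈ T then cS k i * (N : ℝ) else 0) +
        (2 * (N : ℝ) * (Nat.gcd d d₁ : ℝ) / ((P ^ i : ℕ) : ℝ) + 1) := by
  classical
  rcases hSel with ⟨_, hno⟩ | ⟨hu1, huW, b, hsp⟩
  · refine ⟨∅, Finset.empty_subset _, by simpa using hRU0, ?_⟩
    intro d hd
    have h1 := pair_non h s₁ u₁ d d₁ hno (hS d hd) (hS d₁ hd₁) (Rp k N K t s₁ d d₁)
      (fun p hp => mem_Rp.mp hp)
    simpa using h1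
  · refine ⟨S.filter (fun d : ℕ => Nr (t * (d : ℝ) ^ k - t * (d₁ : ℝ) ^ k) (1 / (K : ℝ) ^ k)),
      Finset.filter_subset _ _, ?_, ?_⟩
    · have h1 := roots_spc h hF u₁ d₁ b hu1 huW hsp
        (S.filter (fun d : ℕ => Nr (t * (d : ℝ) ^ k - t * (d₁ : ℝ) ^ k) (1 / (K : ℝ) ^ k)))
        (fun d hd => hS d (Finset.mem_filter.mp hd).1) (hS d₁ hd₁)
        (fun d hd => (Finset.mem_filter.mp hd).2)
      refine le_trans ?_ (hRU u₁ hu1 huW)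
      exact_mod_cast h1
    · intro d hd
      by_cases hc : Nr (t * (d : ℝ) ^ k - t * (d₁ : ℝ) ^ k) (1 / (K : ℝ) ^ k)
      · have hdT : d ∈ S.filter (fun d : ℕ => Nr (t * (d : ℝ) ^ k - t * (d₁ : ℝ) ^ k) (1 / (K : ℝ) ^ k)) :=
          Finset.mem_filter.mpr ⟨hd, hc⟩
        rw [if_pos hdT]
        exact pair_spc h hF s₁ u₁ d d₁ b hu1 huW hsp (hS d hd) (hS d₁ hd₁)
          (Rp k N K t s₁ d d₁) (fun p hp => mem_Rp.mp hp)
      · have h0 : Rp k N K t s₁ d d₁ = ∅ := by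
          rw [Finset.eq_empty_iff_forall_notMem]
          intro p hp
          exact hc (mem_Rp.mp hp).2.2.1
        rw [h0]
        have hdT : ¬ d ∈ S.filter (fun d : ℕ => Nr (t * (d : ℝ) ^ k - t * (d₁ : ℝ) ^ k) (1 / (K : ℝ) ^ k)) := by
          intro h2
          exact hc (Finset.mem_filter.mp h2).2
        rw [if_neg hdT]
        simp only [Finset.card_empty, Nat.cast_zero, zero_add]
        positivity

theorem inner_sum {k N K P i W : ℕ} {t : ℝ} (h : NC k N K P i W) (hF : Far k N t) (s₁ : ℝ)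
    (u₁ : ℕ) (hSel : Sel k N K P i W t u₁) (S : Finset ℕ)
    (hS : ∀ d ∈ S, Dil (k - 1) W i P u₁ ((k : ℝ) * t) (del k N K) d)
    (RU τ : ℝ) (hRU : ∀ m : ℕ, 1 ≤ m → m ≤ W →
      ((((Finset.range m).filter (fun x => Nat.Coprime x m ∧ x ^ k ≡ 1 [MOD m])).card : ℕ) : ℝ) ≤ RU)
    (hRU0 : 0 ≤ RU) (hτ : ∀ d ∈ S, ((Nat.divisors d).card : ℝ) ≤ τ) (d₁ : ℕ) (hd₁ : d₁ ∈ S) :
    ∑ d ∈ S, ((Rp k N K t s₁ d d₁).card : ℝ) ≤
      (N : ℝ) * (RU * cS k i + 2 ^ (i + 1) * τ + 1) := by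
  classical
  have hP1 : 1 ≤ P ^ i := Nat.one_le_pow _ _ h.hP
  have hSr : ∀ e ∈ S, 1 ≤ e ∧ e ≤ (2 * P) ^ i := by
    intro e he
    have := (hS e he).1
    exact ⟨by omega, (hS e he).2.1⟩
  have hScard : (S.card : ℝ) ≤ (N : ℝ) := by
    have h1 : S ⊆ Finset.Icc 1 ((2 * P) ^ i) := by
      intro e he
      exact Finset.mem_Icc.mpr (hSr e he)
    have h2 := Finset.card_le_card h1
    rw [Nat.card_Icc] at h2
    have h3 : (2 * P) ^ i ≤ N := by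
      have := h.n1
      have := h.hK
      nlinarith
    have h4 : S.card ≤ N := by omega
    exact_mod_cast h4
  have hgcd : ∑ d ∈ S, (Nat.gcd d d₁ : ℝ) ≤ τ * (2 * (P : ℝ)) ^ i := by
    have h1 := gcd_sum S d₁ ((2 * P) ^ i) (hSr d₁ hd₁).1 hSr
    have h2 : ((∑ e ∈ S, Nat.gcd d₁ e : ℕ) : ℝ) ≤ (((Nat.divisors d₁).card * (2 * P) ^ i : ℕ) : ℝ) := by
      exact_mod_cast h1
    push_cast at h2
    have h3 : ∑ d ∈ S, (Nat.gcd d d₁ : ℝ) = ∑ e ∈ S, (Nat.gcd d₁ e : ℝ) := by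
      apply Finset.sum_congr rfl
      intro d _
      rw [Nat.gcd_comm]
    rw [h3]
    refine h2.trans ?_
    exact mul_le_mul_of_nonneg_right (hτ d₁ hd₁) (by positivity)
  obtain ⟨T, hTS, hTc, hT⟩ := inner h hF s₁ u₁ hSel S hS RU hRU hRU0 d₁ hd₁
  have hP0 : (0 : ℝ) < (P : ℝ) := by exact_mod_cast h.hP
  have hPi : (0 : ℝ) < (P : ℝ) ^ i := by positivity
  have hcS : 0 ≤ cS k i := by
    unfold cS
    positivity
  calc ∑ d ∈ S, ((Rp k N K t s₁ d d₁).card : ℝ)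
      ≤ ∑ d ∈ S, ((if d ∈ T then cS k i * (N : ℝ) else 0) +
        (2 * (N : ℝ) * (Nat.gcd d d₁ : ℝ) / ((P ^ i : ℕ) : ℝ) + 1)) := Finset.sum_le_sum hT
    _ = (T.card : ℝ) * (cS k i * (N : ℝ)) +
        (2 * (N : ℝ) / (P : ℝ) ^ i * ∑ d ∈ S, (Nat.gcd d d₁ : ℝ) + (S.card : ℝ)) := by
        rw [Finset.sum_add_distrib, Finset.sum_add_distrib]
        congr 1
        · rw [← Finset.sum_filter]
          have h1 : S.filter (fun d => d ∈ T) = T := by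
            ext d
            rw [Finset.mem_filter]
            exact ⟨fun h2 => h2.2, fun h2 => ⟨hTS h2, h2⟩⟩
          rw [h1, Finset.sum_const, nsmul_eq_mul]
        · congr 1
          · rw [Finset.mul_sum]
            apply Finset.sum_congr rfl
            intro d _
            push_cast
            ring
          · rw [Finset.sum_const, nsmul_eq_mul, mul_one]
    _ ≤ RU * (cS k i * (N : ℝ)) + (2 * (N : ℝ) / (P : ℝ) ^ i * (τ * (2 * (P : ℝ)) ^ i) + (N : ℝ)) := by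
        apply add_le_add
        · exact mul_le_mul_of_nonneg_right hTc (by positivity)
        · apply add_le_add _ hScard
          exact mul_le_mul_of_nonneg_left hgcd (by positivity)
    _ = (N : ℝ) * (RU * cS k i + 2 ^ (i + 1) * τ + 1) := by
        rw [mul_pow]
        field_simp
        ring

theorem ene_count {k N K P i W : ℕ} {t : ℝ} (h : NC k N K P i W) (hF : Far k N t) (s₁ s₂ : ℝ)
    (u₁ : ℕ) (hSel : Sel k N K P i W t u₁) (S : Finset ℕ)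
    (hS : ∀ d ∈ S, Dil (k - 1) W i P u₁ ((k : ℝ) * t) (del k N K) d)
    (RU τ : ℝ) (hRU : ∀ m : ℕ, 1 ≤ m → m ≤ W →
      ((((Finset.range m).filter (fun x => Nat.Coprime x m ∧ x ^ k ≡ 1 [MOD m])).card : ℕ) : ℝ) ≤ RU)
    (hRU0 : 0 ≤ RU) (hτ : ∀ d ∈ S, ((Nat.divisors d).card : ℝ) ≤ τ) :
    (Nat.card {v : (ℕ × ℤ) × (ℕ × ℤ) // v.1.1 ∈ S ∧ v.2.1 ∈ S ∧ |v.1.2| ≤ (N : ℤ) ∧
          |v.2.2| ≤ (N : ℤ) ∧ Close k K t s₁ s₂ v} : ℝ) ≤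
      (S.card : ℝ) * ((N : ℝ) * (RU * cS k i + 2 ^ (i + 1) * τ + 1)) := by
  classical
  -- the comparison set
  let A : Finset (Σ _ : ℕ × ℕ, ℤ × ℤ) := (S ×ˢ S).sigma (fun e => Rp k N K t s₁ e.1 e.2)
  have hle : Nat.card {v : (ℕ × ℤ) × (ℕ × ℤ) // v.1.1 ∈ S ∧ v.2.1 ∈ S ∧ |v.1.2| ≤ (N : ℤ) ∧
          |v.2.2| ≤ (N : ℤ) ∧ Close k K t s₁ s₂ v} ≤ A.card := by
    have h1 : Nat.card {a // a ∈ A} = A.card := by
      rw [Nat.card_eq_fintype_card, Fintype.card_coe]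
    rw [← h1]
    apply Nat.card_le_card_of_injective
      (fun v : {v : (ℕ × ℤ) × (ℕ × ℤ) // v.1.1 ∈ S ∧ v.2.1 ∈ S ∧ |v.1.2| ≤ (N : ℤ) ∧
          |v.2.2| ≤ (N : ℤ) ∧ Close k K t s₁ s₂ v} =>
        (⟨⟨(v.1.1.1, v.1.2.1), (v.1.1.2, v.1.2.2)⟩, by
          refine Finset.mem_sigma.mpr ⟨Finset.mem_product.mpr ⟨v.2.1, v.2.2.1⟩, ?_⟩
          refine mem_Rp.mpr ⟨v.2.2.2.1, v.2.2.2.2.1, ?_⟩
          exact ⟨v.2.2.2.2.2.1, v.2.2.2.2.2.2.1⟩⟩ : {a // a ∈ A}))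
    intro v v' hvv
    have h2 := congrArg Subtype.val hvv
    simp only [Sigma.mk.injEq, Prod.mk.injEq, heq_eq_eq] at h2
    obtain ⟨⟨e1, e2⟩, e3, e4⟩ := h2
    apply Subtype.ext
    exact Prod.ext (Prod.ext e1 e3) (Prod.ext e2 e4)
  have hA : A.card = ∑ d₁ ∈ S, ∑ d ∈ S, (Rp k N K t s₁ d d₁).card := by
    have h1 : A.card = ∑ e ∈ S ×ˢ S, (Rp k N K t s₁ e.1 e.2).card := Finset.card_sigma _ _
    rw [h1, Finset.sum_product_right]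
  calc (Nat.card {v : (ℕ × ℤ) × (ℕ × ℤ) // v.1.1 ∈ S ∧ v.2.1 ∈ S ∧ |v.1.2| ≤ (N : ℤ) ∧
          |v.2.2| ≤ (N : ℤ) ∧ Close k K t s₁ s₂ v} : ℝ) ≤ (A.card : ℝ) := by exact_mod_cast hle
    _ = ∑ d₁ ∈ S, ∑ d ∈ S, ((Rp k N K t s₁ d d₁).card : ℝ) := by
        rw [hA]
        push_cast
        rfl
    _ ≤ ∑ d₁ ∈ S, (N : ℝ) * (RU * cS k i + 2 ^ (i + 1) * τ + 1) := by
        apply Finset.sum_le_sum
        intro d₁ hd₁
        exact inner_sum h hF s₁ u₁ hSel S hS RU τ hRU hRU0 hτ d₁ hd₁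
    _ = (S.card : ℝ) * ((N : ℝ) * (RU * cS k i + 2 ^ (i + 1) * τ + 1)) := by
        rw [Finset.sum_const, nsmul_eq_mul]

end Pool.Agent.VM.H7
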