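import Mathlib
import Pool.Agent.Helper7_VM.Sum
import Pool.Agent.Helper7_VM.StmtsN
import Pool.Agent.Helper69_Weyl.Divisor

/-!
# The energy bound: assembly
-/

set_option autoImplicit false

namespace Pool.Agent.VM.H7

open Pool.Agent.VM

theorem enfar (k : ℕ) (θ : ℝ) (num : NumFStmt k θ) (pdv : PdvStmt) (rtu : RtuStmt)
    (hk : 2 ≤ k) : EnFarStmt k θ := by
  intro ε hε
  obtain ⟨i, B, N₀, hnum⟩ := num ε hε
  obtain ⟨C₁, hC₁, hrtu⟩ := rtu k (by omega) (ε / 4) (by linarith)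
  obtain ⟨C₂, hC₂, hdv⟩ := Pool.Agent.Helper69_Weyl.exists_card_divisors_le (ε / 4) (by linarith)
  have hcS : 0 ≤ cS k i := by
    unfold cS
    positivity
  have hC₂0 : 0 ≤ C₂ := by linarith
  refine ⟨C₁ * (4 : ℝ) ^ (ε / 4) * cS k i + 2 ^ (i + 1) * C₂ + 1, N₀, by positivity, ?_⟩
  intro N t hN₀ hN hF
  obtain ⟨P, K, hP, hNC, hB1, hB2, hB3, hprs⟩ := hnum N hN₀
  have hN0 : (0 : ℝ) < (N : ℝ) := by exact_mod_cast hN
  have hN1 : (1 : ℝ) ≤ (N : ℝ) := by exact_mod_cast hN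
  generalize hWdef : 4 * (2 * P) ^ i * N = W at hNC hB1 hB2
  have h2P : 1 ≤ (2 * P) ^ i := Nat.one_le_pow _ _ (by omega)
  have hDN : (2 * P) ^ i ≤ N := by
    have := hNC.n1
    have := hNC.hK
    nlinarith
  have hW1 : 1 ≤ W := by
    rw [← hWdef]
    nlinarith
  have hWN : W ≤ 4 * N ^ 2 := by
    rw [← hWdef]
    nlinarith
  obtain ⟨u₁, hu1, hu2, hsel⟩ := sel_exists k N K P i W t
  obtain ⟨S, hS, hcard⟩ := dil pdv (k - 1) W P B u₁ ((k : ℝ) * t) (del k N K) hP hW1 hu1 hB1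
    (lt_of_le_of_lt hu2 hB2) hNC.n2 i hB3
  have hSr : ∀ d ∈ S, 1 ≤ d ∧ d ≤ (2 * P) ^ i := by
    intro d hd
    have h1 := (hS d hd).1
    have h2 : 1 ≤ P ^ i := Nat.one_le_pow _ _ (by omega)
    exact ⟨by omega, (hS d hd).2.1⟩
  refine ⟨K, S, hNC.hK, ?_, ?_, ?_⟩
  · intro d hd
    exact ⟨(hSr d hd).1, (Nat.mul_le_mul_right K (hSr d hd).2).trans hNC.n1⟩
  · have hB : 1 ≤ B := by
      rcases Nat.eq_zero_or_pos B with h0 | h0
      · rw [h0, pow_zero] at hB3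
        omega
      · exact h0
    have hBi : (0 : ℝ) < (B : ℝ) ^ i := by
      have : (0 : ℝ) < (B : ℝ) := by exact_mod_cast hB
      positivity
    have h1 : ((((prs P).card - 2 * B) ^ i : ℕ) : ℝ) ≤ ((B ^ i * S.card : ℕ) : ℝ) := by
      exact_mod_cast hcard
    have h2 := hprs.trans h1
    push_cast at h2
    rw [mul_comm] at h2
    exact le_of_mul_le_mul_left h2 hBi
  · intro s₁ s₂
    have hRU : ∀ m : ℕ, 1 ≤ m → m ≤ W →
        ((((Finset.range m).filter (fun x => Nat.Coprime x m ∧ x ^ k ≡ 1 [MOD m])).card : ℕ) : ℝ) ≤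
          C₁ * (W : ℝ) ^ (ε / 4) := by
      intro m hm1 hm2
      refine (hrtu m hm1).trans ?_
      apply mul_le_mul_of_nonneg_left _ hC₁.le
      apply Real.rpow_le_rpow (by positivity) _ (by linarith)
      exact_mod_cast hm2
    have hτ : ∀ d ∈ S, ((Nat.divisors d).card : ℝ) ≤ C₂ * (N : ℝ) ^ (ε / 4) := by
      intro d hd
      refine (hdv d (by have := (hSr d hd).1; omega)).trans ?_
      apply mul_le_mul_of_nonneg_left _ hC₂0
      apply Real.rpow_le_rpow (by positivity) _ (by linarith)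
      exact_mod_cast (hSr d hd).2.trans hDN
    have h1 := ene_count hNC hF s₁ s₂ u₁ hsel S hS (C₁ * (W : ℝ) ^ (ε / 4))
      (C₂ * (N : ℝ) ^ (ε / 4)) hRU (by positivity) hτ
    refine h1.trans ?_
    have hx : (N : ℝ) ^ (ε / 4) ≤ (N : ℝ) ^ ε := Real.rpow_le_rpow_of_exponent_le hN1 (by linarith)
    have hx1 : (1 : ℝ) ≤ (N : ℝ) ^ ε := Real.one_le_rpow hN1 hε.le
    have hW2 : (W : ℝ) ^ (ε / 4) ≤ (4 : ℝ) ^ (ε / 4) * (N : ℝ) ^ ε := by
      have h2 : (W : ℝ) ≤ 4 * (N : ℝ) ^ 2 := by exact_mod_cast hWN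
      calc (W : ℝ) ^ (ε / 4) ≤ (4 * (N : ℝ) ^ 2) ^ (ε / 4) :=
            Real.rpow_le_rpow (by positivity) h2 (by linarith)
        _ = (4 : ℝ) ^ (ε / 4) * ((N : ℝ) ^ 2) ^ (ε / 4) := by
            rw [Real.mul_rpow (by norm_num) (by positivity)]
        _ ≤ (4 : ℝ) ^ (ε / 4) * (N : ℝ) ^ ε := by
            apply mul_le_mul_of_nonneg_left _ (by positivity)
            rw [← Real.rpow_natCast (N : ℝ) 2, ← Real.rpow_mul hN0.le]
            apply Real.rpow_le_rpow_of_exponent_le hN1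
            push_cast
            linarith
    have e1 : (N : ℝ) ^ (1 + ε) = (N : ℝ) * (N : ℝ) ^ ε := by
      rw [Real.rpow_add hN0, Real.rpow_one]
    rw [e1]
    have h3 : C₁ * (W : ℝ) ^ (ε / 4) * cS k i + 2 ^ (i + 1) * (C₂ * (N : ℝ) ^ (ε / 4)) + 1 ≤
        (C₁ * (4 : ℝ) ^ (ε / 4) * cS k i + 2 ^ (i + 1) * C₂ + 1) * (N : ℝ) ^ ε := by
      have a1 : C₁ * (W : ℝ) ^ (ε / 4) * cS k i ≤
          C₁ * ((4 : ℝ) ^ (ε / 4) * (N : ℝ) ^ ε) * cS k i :=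
        mul_le_mul_of_nonneg_right (mul_le_mul_of_nonneg_left hW2 hC₁.le) hcS
      have a2 : (2 : ℝ) ^ (i + 1) * (C₂ * (N : ℝ) ^ (ε / 4)) ≤ 2 ^ (i + 1) * (C₂ * (N : ℝ) ^ ε) := by
        apply mul_le_mul_of_nonneg_left _ (by positivity)
        exact mul_le_mul_of_nonneg_left hx hC₂0
      calc C₁ * (W : ℝ) ^ (ε / 4) * cS k i + 2 ^ (i + 1) * (C₂ * (N : ℝ) ^ (ε / 4)) + 1
          ≤ C₁ * ((4 : ℝ) ^ (ε / 4) * (N : ℝ) ^ ε) * cS k i + 2 ^ (i + 1) * (C₂ * (N : ℝ) ^ ε) +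
            (N : ℝ) ^ ε := add_le_add (add_le_add a1 a2) hx1
        _ = _ := by ring
    calc (S.card : ℝ) * ((N : ℝ) * (C₁ * (W : ℝ) ^ (ε / 4) * cS k i +
          2 ^ (i + 1) * (C₂ * (N : ℝ) ^ (ε / 4)) + 1))
        ≤ (S.card : ℝ) * ((N : ℝ) * ((C₁ * (4 : ℝ) ^ (ε / 4) * cS k i + 2 ^ (i + 1) * C₂ + 1) *
          (N : ℝ) ^ ε)) := by
          apply mul_le_mul_of_nonneg_left _ (by positivity)
          exact mul_le_mul_of_nonneg_left h3 hN0.le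
      _ = (C₁ * (4 : ℝ) ^ (ε / 4) * cS k i + 2 ^ (i + 1) * C₂ + 1) * ((N : ℝ) * (N : ℝ) ^ ε) *
          (S.card : ℝ) := by ring

/-- the version for Dirichlet approximations -/
theorem enf (k : ℕ) (θ : ℝ) (hk : 2 ≤ k) (h : EnFarStmt k θ) : EnfStmt k θ := by
  intro ε hε
  obtain ⟨C, N₀, hC, hN⟩ := h ε hε
  refine ⟨C, N₀, hC, ?_⟩
  intro q t a hq₀ hq hg ht
  exact hN q t hq₀ hq (far_of_approx k q t a hk hq hg ht)

end Pool.Agent.VM.H7
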