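import Mathlib
import Pool.Agent.VM.Wfin
import Pool.Agent.Helper7_VM.EnFar
import Pool.Agent.Helper24_VM.Numf
import Pool.Agent.Helper65_VM.Blf
import Pool.Agent.Helper17_VM.Fng

/-!
# Weyl sums of arbitrary real polynomials with the exponent `(2 k - 1) / (k (k + 1) ^ 2)`
-/

set_option autoImplicit false

namespace Pool.Agent.VM.H7

open Pool.Agent.VM

/-- the energy theorem -/
theorem enfar_fin (k : ℕ) (hk : 3 ≤ k) : EnFarStmt k (((k : ℝ) - 2) / ((k : ℝ) + 1)) :=
  enfar k _ (H24N.numf k hk H39.prm) H29.pdv H39.rtu (by omega)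

/-- sums of length at most `N`, the leading coefficient far from the rational numbers with small
denominators -/
theorem blfar_fin (k : ℕ) (hk : 3 ≤ k) : BlFarStmt k (((k : ℝ) - 2) / ((k : ℝ) + 1)) :=
  H65.blfar k _ hk (lsa k (by omega)) (enfar_fin k hk) H36.avg H65.tay

/-- sums of length at most `q` -/
theorem blg_fin (k : ℕ) (hk : 3 ≤ k) : BlgStmt k (((k : ℝ) - 2) / ((k : ℝ) + 1)) :=
  H65.blg k _ hk (lsa k (by omega)) (enf k _ (by omega) (enfar_fin k hk)) H36.avg H65.tay

/-- the general theorem -/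
theorem fng_fin (k : ℕ) (hk : 3 ≤ k) : FngStmt k (((k : ℝ) - 2) / ((k : ℝ) + 1)) := by
  have hk3 : (3 : ℝ) ≤ (k : ℝ) := by exact_mod_cast hk
  refine H17.fng k _ hk ?_ ?_ (blg_fin k hk)
  · exact div_nonneg (by linarith) (by linarith)
  · rw [div_le_one (by linarith)]
    linarith

end Pool.Agent.VM.H7
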